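import Mathlib

/-!
# TS-LEVY: a quantitative form of the continuity theorem for empirical measures

Written by helper383 for helper956.
-/

set_option autoImplicit false

namespace Pool.Agent.Y956.TS

open Finset MeasureTheory ProbabilityTheory Filter Topology
open scoped ENNReal

namespace LevyAux

/-- empirical measure -/
noncomputable def emp (x : ℕ) (Z : ℕ → ℝ) : Measure ℝ :=
  (x : ℝ≥0∞)⁻¹ • ∑ n ∈ Icc 1 x, Measure.dirac (Z n)

theorem emp_apply (x : ℕ) (Z : ℕ → ℝ) (u : ℝ) :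
    (emp x Z (Set.Iic u)).toReal =
      (1 / (x : ℝ)) * (((Icc 1 x).filter (fun n => Z n ≤ u)).card : ℝ) := by
  rw [emp, Measure.smul_apply, Measure.finsetSum_apply, smul_eq_mul, ENNReal.toReal_mul,
    ENNReal.toReal_inv, ENNReal.toReal_natCast, ENNReal.toReal_sum]
  · rw [one_div]
    congr 1
    rw [Finset.card_filter]
    push_cast
    apply Finset.sum_congr rfl
    intro n _
    rw [Measure.dirac_apply' _ measurableSet_Iic]
    by_cases h : Z n ≤ u
    · simp [h, Set.indicator]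
    · simp [h, Set.indicator]
  · intro n _
    exact measure_ne_top _ _

theorem emp_prob (x : ℕ) (hx : 1 ≤ x) (Z : ℕ → ℝ) : IsProbabilityMeasure (emp x Z) := by
  constructor
  rw [emp, Measure.smul_apply, Measure.finsetSum_apply, smul_eq_mul]
  simp only [measure_univ, sum_const, Nat.card_Icc, Nat.add_sub_cancel, nsmul_eq_mul, mul_one]
  refine ENNReal.inv_mul_cancel ?_ (ENNReal.natCast_ne_top x)
  have : x ≠ 0 := by omega
  exact_mod_cast this

theorem emp_char (x : ℕ) (Z : ℕ → ℝ) (t : ℝ) :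
    charFun (emp x Z) t =
      (1 / (x : ℂ)) * ∑ n ∈ Icc 1 x, Complex.exp (Complex.I * ((t * Z n : ℝ) : ℂ)) := by
  rw [charFun_apply_real, emp, integral_smul_measure, integral_finsetSum_measure]
  · simp only [integral_dirac, ENNReal.toReal_inv, ENNReal.toReal_natCast]
    rw [Complex.real_smul]
    push_cast
    rw [one_div]
    congr 1
    apply Finset.sum_congr rfl
    intro n _
    congr 1
    ring
  · intro n _
    exact integrable_dirac (by simp)

theorem exp_sub (a b : ℝ) : ‖Complex.exp (Complex.I * (a : ℂ)) - Complex.exp (Complex.I * (b : ℂ))‖ ≤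
    |a - b| := by
  have h1 : Complex.exp (Complex.I * (a : ℂ)) - Complex.exp (Complex.I * (b : ℂ)) =
      Complex.exp (Complex.I * (b : ℂ)) * (Complex.exp (Complex.I * ((a - b : ℝ) : ℂ)) - 1) := by
    rw [mul_sub, ← Complex.exp_add, mul_one]
    congr 2
    push_cast
    ring
  rw [h1, norm_mul, mul_comm Complex.I (b : ℂ), Complex.norm_exp_ofReal_mul_I, one_mul]
  have h2 := Real.norm_exp_I_mul_ofReal_sub_one_le (x := a - b)
  rwa [Real.norm_eq_abs] at h2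

theorem char_lip (x : ℕ) (hx : 1 ≤ x) (Z : ℕ → ℝ) (K : ℝ)
    (hK : (1 / (x : ℝ)) * ∑ n ∈ Icc 1 x, (Z n) ^ 2 ≤ K) (s t : ℝ) :
    ‖charFun (emp x Z) s - charFun (emp x Z) t‖ ≤ (1 + K) * |s - t| := by
  have hx0 : (0 : ℝ) < x := by exact_mod_cast hx
  rw [emp_char, emp_char, ← mul_sub, ← Finset.sum_sub_distrib, norm_mul]
  have h1 : ‖(1 / (x : ℂ))‖ = 1 / (x : ℝ) := by simp
  rw [h1]
  have h2 : ‖∑ n ∈ Icc 1 x, (Complex.exp (Complex.I * ((s * Z n : ℝ) : ℂ)) -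
      Complex.exp (Complex.I * ((t * Z n : ℝ) : ℂ)))‖ ≤
      ∑ n ∈ Icc 1 x, (1 + (Z n) ^ 2) * |s - t| := by
    refine (norm_sum_le _ _).trans (Finset.sum_le_sum fun n _ => ?_)
    refine (exp_sub _ _).trans ?_
    rw [← sub_mul, abs_mul, mul_comm]
    gcongr
    nlinarith [sq_nonneg (|Z n| - 1), sq_abs (Z n), abs_nonneg (Z n)]
  have h3 : ∑ n ∈ Icc 1 x, (1 + (Z n) ^ 2) * |s - t| =
      (x + ∑ n ∈ Icc 1 x, (Z n) ^ 2) * |s - t| := by
    rw [← Finset.sum_mul, Finset.sum_add_distrib]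
    simp
  rw [h3] at h2
  calc 1 / (x : ℝ) * _ ≤ 1 / (x : ℝ) * ((x + ∑ n ∈ Icc 1 x, (Z n) ^ 2) * |s - t|) := by
        gcongr
    _ = (1 + 1 / (x : ℝ) * ∑ n ∈ Icc 1 x, (Z n) ^ 2) * |s - t| := by
        field_simp
    _ ≤ _ := by gcongr

end LevyAux

open LevyAux

theorem levy (u ε K : ℝ) (hε : 0 < ε) : ∃ (T : Finset ℝ) (η : ℝ), 0 < η ∧ ∀ (x : ℕ), 1 ≤ x →
    ∀ Z : ℕ → ℝ,
    (1 / (x : ℝ)) * ∑ n ∈ Icc 1 x, (Z n) ^ 2 ≤ K →
    (∀ t ∈ T, ‖(1 / (x : ℂ)) * ∑ n ∈ Icc 1 x, Complex.exp (Complex.I * ((t * Z n : ℝ) : ℂ)) -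
      ((Real.exp (-(t ^ 2 / 2)) : ℝ) : ℂ)‖ ≤ η) →
    |(1 / (x : ℝ)) * (((Icc 1 x).filter (fun n => Z n ≤ u)).card : ℝ) -
      (ProbabilityTheory.gaussianReal 0 1 (Set.Iic u)).toReal| ≤ ε := by
  by_contra hcon
  push Not at hcon
  obtain ⟨e, he⟩ := exists_surjective_nat ℚ
  choose x hx Z hK hT hbig using fun k : ℕ =>
    hcon ((range (k + 1)).image (fun i => ((e i : ℚ) : ℝ))) (1 / ((k : ℝ) + 1)) (by positivity)
  let μ : ℕ → ProbabilityMeasure ℝ := fun k => ⟨emp (x k) (Z k), emp_prob (x k) (hx k) (Z k)⟩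
  let μ₀ : ProbabilityMeasure ℝ := ⟨gaussianReal 0 1, inferInstance⟩
  have hchar : ∀ t : ℝ, Tendsto (fun k => charFun (emp (x k) (Z k)) t) atTop
      (𝓝 ((Real.exp (-(t ^ 2 / 2)) : ℝ) : ℂ)) := by
    intro t
    rw [Metric.tendsto_atTop]
    intro δ hδ
    have hev1 : ∀ᶠ s in 𝓝 t, (1 + K) * |s - t| < δ / 3 := by
      have hc : ContinuousAt (fun s : ℝ => (1 + K) * |s - t|) t := by fun_prop
      have h0 : (1 + K) * |t - t| < δ / 3 := by
        rw [sub_self, abs_zero, mul_zero]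
        positivity
      exact hc.eventually_lt continuousAt_const h0
    have hev2 : ∀ᶠ s in 𝓝 t, ‖((Real.exp (-(s ^ 2 / 2)) : ℝ) : ℂ) -
        ((Real.exp (-(t ^ 2 / 2)) : ℝ) : ℂ)‖ < δ / 3 := by
      have hc : ContinuousAt (fun s : ℝ => ‖((Real.exp (-(s ^ 2 / 2)) : ℝ) : ℂ) -
        ((Real.exp (-(t ^ 2 / 2)) : ℝ) : ℂ)‖) t := by fun_prop
      have h0 : ‖((Real.exp (-(t ^ 2 / 2)) : ℝ) : ℂ) -
        ((Real.exp (-(t ^ 2 / 2)) : ℝ) : ℂ)‖ < δ / 3 := by
        rw [sub_self, norm_zero]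
        positivity
      exact hc.eventually_lt continuousAt_const h0
    obtain ⟨s, ⟨q, rfl⟩, h1, h2⟩ :=
      ((mem_closure_iff_frequently.mp (Rat.denseRange_cast (𝕜 := ℝ) t)).and_eventually
        (hev1.and hev2)).exists
    obtain ⟨j, rfl⟩ := he q
    obtain ⟨N, hN⟩ := exists_nat_one_div_lt (show 0 < δ / 3 by positivity)
    refine ⟨max j N, fun k hk => ?_⟩
    have hjk : j ≤ k := (le_max_left _ _).trans hk
    have hNk : N ≤ k := (le_max_right _ _).trans hk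
    have h3 := hT k ((e j : ℚ) : ℝ) (Finset.mem_image.mpr ⟨j, Finset.mem_range.mpr (by omega), rfl⟩)
    rw [← emp_char] at h3
    have h4 : 1 / ((k : ℝ) + 1) ≤ 1 / ((N : ℝ) + 1) := by
      have : (N : ℝ) ≤ k := by exact_mod_cast hNk
      gcongr
    have h5 := char_lip (x k) (hx k) (Z k) K (hK k) ((e j : ℚ) : ℝ) t
    rw [dist_eq_norm]
    have h6 : charFun (emp (x k) (Z k)) t - ((Real.exp (-(t ^ 2 / 2)) : ℝ) : ℂ) =
        -(charFun (emp (x k) (Z k)) ((e j : ℚ) : ℝ) - charFun (emp (x k) (Z k)) t) +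
        (charFun (emp (x k) (Z k)) ((e j : ℚ) : ℝ) -
          ((Real.exp (-(((e j : ℚ) : ℝ) ^ 2 / 2)) : ℝ) : ℂ)) +
        (((Real.exp (-(((e j : ℚ) : ℝ) ^ 2 / 2)) : ℝ) : ℂ) -
          ((Real.exp (-(t ^ 2 / 2)) : ℝ) : ℂ)) := by ring
    rw [h6]
    refine (norm_add₃_le).trans_lt ?_
    rw [norm_neg]
    linarith
  have hlim : Tendsto μ atTop (𝓝 μ₀) := by
    rw [ProbabilityMeasure.tendsto_iff_tendsto_charFun]
    intro t
    have h0 : charFun (μ₀ : Measure ℝ) t = ((Real.exp (-(t ^ 2 / 2)) : ℝ) : ℂ) := by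
      change charFun (gaussianReal 0 1) t = _
      rw [charFun_gaussianReal]
      push_cast
      congr 1
      simp
    rw [h0]
    exact hchar t
  have hna : NullSingletonClass (gaussianReal 0 1) := nullSingletonClass_gaussianReal one_ne_zero
  have hfr : (μ₀ : Measure ℝ) (frontier (Set.Iic u)) = 0 := by
    rw [frontier_Iic]
    change gaussianReal 0 1 {u} = 0
    exact measure_singleton u
  have h1 := ProbabilityMeasure.tendsto_measure_of_null_frontier_of_tendsto' hlim hfr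
  have h2 := (ENNReal.tendsto_toReal (measure_ne_top (μ₀ : Measure ℝ) (Set.Iic u))).comp h1
  have h3 := (Metric.tendsto_atTop.mp h2) ε hε
  obtain ⟨N, hN⟩ := h3
  have h4 := hN N le_rfl
  rw [Real.dist_eq] at h4
  have h5 : ((fun i => (μ i : Measure ℝ) (Set.Iic u)) N).toReal =
      (1 / (x N : ℝ)) * (((Icc 1 (x N)).filter (fun n => Z N n ≤ u)).card : ℝ) :=
    emp_apply (x N) (Z N) u
  rw [Function.comp_apply, h5] at h4
  exact absurd h4 (not_lt.mpr (hbig N).le)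

end Pool.Agent.Y956.TS
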