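import Mathlib

/-!
# TS-MOM: second moment of random sums (helper974)
-/

set_option autoImplicit false

namespace Pool.Agent.Y956.TS

open Finset

theorem mom_cons (M H : ℕ) (f : (Fin (H + 1) → Fin M) → ℝ) :
    ∑ s, f s = ∑ a : Fin M, ∑ s : Fin H → Fin M, f (Fin.cons a s) := by
  rw [← (Fin.consEquiv (fun _ => Fin M)).sum_comp, Fintype.sum_prod_type]
  rfl

theorem mom_lin (M : ℕ) (g : ℕ → ℝ) (H : ℕ) :
    (M : ℝ) * ∑ s : Fin H → Fin M, ∑ j, g (s j) = H * (M : ℝ) ^ H * ∑ a : Fin M, g a := by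
  induction H with
  | zero => simp
  | succ H ih =>
    rw [mom_cons]
    simp only [Fin.sum_univ_succ, Fin.cons_zero, Fin.cons_succ, sum_add_distrib, sum_const,
      card_univ, Fintype.card_fun, Fintype.card_fin, nsmul_eq_mul]
    rw [← mul_sum, mul_add, mul_left_comm, ih]
    push_cast
    ring

theorem mom_sq (M : ℕ) (g : ℕ → ℝ) (H : ℕ) :
    (M : ℝ) ^ 2 * ∑ s : Fin H → Fin M, (∑ j, g (s j)) ^ 2 =
      (M : ℝ) ^ H * (H * M * ∑ a : Fin M, g a ^ 2 + H * (H - 1) * (∑ a : Fin M, g a) ^ 2) := by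
  induction H with
  | zero => simp
  | succ H ih =>
    have hl := mom_lin M g H
    rw [mom_cons]
    have h1 : ∑ a : Fin M, ∑ s : Fin H → Fin M, (∑ j, g ((Fin.cons a s : Fin (H + 1) → Fin M) j)) ^ 2
        = (M : ℝ) ^ H * ∑ a : Fin M, g a ^ 2 +
          2 * (∑ a : Fin M, g a) * (∑ s : Fin H → Fin M, ∑ j, g (s j)) +
          M * ∑ s : Fin H → Fin M, (∑ j, g (s j)) ^ 2 := by
      simp only [Fin.sum_univ_succ, Fin.cons_zero, Fin.cons_succ, add_sq, sum_add_distrib,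
        sum_const, card_univ, Fintype.card_fun, Fintype.card_fin, nsmul_eq_mul]
      have p1 : ∑ a : Fin M, ((M ^ H : ℕ) : ℝ) * g a ^ 2 =
          (M : ℝ) ^ H * ∑ a : Fin M, g a ^ 2 := by
        rw [mul_sum]
        push_cast
        rfl
      have p2 : ∑ a : Fin M, ∑ s : Fin H → Fin M, 2 * g a * ∑ j, g (s j) =
          2 * (∑ a : Fin M, g a) * (∑ s : Fin H → Fin M, ∑ j, g (s j)) := by
        rw [mul_assoc, sum_mul_sum, mul_sum]
        refine sum_congr rfl fun a _ => ?_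
        rw [mul_sum]
        exact sum_congr rfl fun s _ => by ring
      rw [p1, p2]
    rw [h1]
    generalize (∑ s : Fin H → Fin M, (∑ j, g (s j)) ^ 2) = F at *
    generalize (∑ s : Fin H → Fin M, ∑ j, g (s j)) = L at *
    generalize (∑ a : Fin M, g a ^ 2) = A at *
    generalize (∑ a : Fin M, g a) = S at *
    push_cast
    linear_combination (2 * S * M) * hl + (M : ℝ) * ih

theorem mom (m : ℕ → ℤ) (hm : ∀ n, m n = 0 ∨ m n = 1 ∨ m n = -1) (M x H : ℕ) (hM : 1 ≤ M) (hx : 1 ≤ x) (δ : ℝ) (hδ0 : 0 ≤ δ)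
    (hδ : ∀ a < M, ∀ b < M, a ≠ b → |(1 / (x : ℝ)) * ∑ n ∈ Icc 1 x, (m (n + a) : ℝ) * (m (n + b) : ℝ)| ≤ δ)
    (hMδ : M * δ ≤ 1) (hHM : H ≤ M) :
    (1 / (M : ℝ) ^ H) * ∑ s : Fin H → Fin M, (1 / (x : ℝ)) * ∑ n ∈ Icc 1 x, ((∑ j, m (n + s j) : ℤ) : ℝ) ^ 2 ≤ 3 * H := by
  have hM0 : (0 : ℝ) < M := by exact_mod_cast hM
  have hx0 : (0 : ℝ) < x := by exact_mod_cast hx
  have hms : ∀ n, (m n : ℝ) ^ 2 ≤ 1 := by
    intro n
    rcases hm n with h | h | h <;> rw [h] <;> norm_num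
  -- the average over `s` for fixed `n`
  have h1 : (1 / (M : ℝ) ^ H) * ∑ s : Fin H → Fin M, (1 / (x : ℝ)) *
      ∑ n ∈ Icc 1 x, ((∑ j, m (n + s j) : ℤ) : ℝ) ^ 2 =
      (1 / (x : ℝ)) * ∑ n ∈ Icc 1 x, (H / M * ∑ a : Fin M, (m (n + a) : ℝ) ^ 2 +
        H * (H - 1) / M ^ 2 * (∑ a : Fin M, (m (n + a) : ℝ)) ^ 2) := by
    rw [← mul_sum, sum_comm, mul_left_comm, mul_sum (s := Icc 1 x)]
    congr 1
    refine sum_congr rfl fun n _ => ?_
    have h2 := mom_sq M (fun a => (m (n + a) : ℝ)) H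
    push_cast
    have h3 : ∑ s : Fin H → Fin M, (∑ j, (m (n + s j) : ℝ)) ^ 2 =
        (M : ℝ) ^ H * (H * M * ∑ a : Fin M, (m (n + a) : ℝ) ^ 2 +
          H * (H - 1) * (∑ a : Fin M, (m (n + a) : ℝ)) ^ 2) / M ^ 2 := by
      rw [eq_div_iff (by positivity), mul_comm]
      exact h2
    rw [h3]
    field_simp
  rw [h1, sum_add_distrib, ← mul_sum, ← mul_sum, mul_add]
  -- the first part
  have h4 : (1 / (x : ℝ)) * (H / M * ∑ n ∈ Icc 1 x, ∑ a : Fin M, (m (n + a) : ℝ) ^ 2) ≤ H := by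
    have h5 : ∑ n ∈ Icc 1 x, ∑ a : Fin M, (m (n + a) : ℝ) ^ 2 ≤ x * M := by
      calc _ ≤ ∑ n ∈ Icc 1 x, ∑ a : Fin M, (1 : ℝ) :=
            sum_le_sum fun n _ => sum_le_sum fun a _ => hms _
        _ = x * M := by simp
    calc _ ≤ (1 / (x : ℝ)) * (H / M * (x * M)) := by gcongr
      _ = H := by field_simp
  -- the average of the squares
  have h6 : (1 / (x : ℝ)) * ∑ n ∈ Icc 1 x, (∑ a : Fin M, (m (n + a) : ℝ)) ^ 2 ≤ 2 * M := by
    have h7 : (1 / (x : ℝ)) * ∑ n ∈ Icc 1 x, (∑ a : Fin M, (m (n + a) : ℝ)) ^ 2 =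
        ∑ a : Fin M, ∑ b : Fin M,
          (1 / (x : ℝ)) * ∑ n ∈ Icc 1 x, (m (n + a) : ℝ) * (m (n + b) : ℝ) := by
      simp only [sq, sum_mul_sum]
      rw [sum_comm, mul_sum]
      refine sum_congr rfl fun a _ => ?_
      rw [sum_comm, mul_sum]
    rw [h7]
    have h8 : ∀ a b : Fin M, (1 / (x : ℝ)) * ∑ n ∈ Icc 1 x, (m (n + a) : ℝ) * (m (n + b) : ℝ) ≤
        (if a = b then 1 else 0) + δ := by
      intro a b
      by_cases hab : a = b
      · subst hab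
        rw [if_pos rfl]
        have h9 : ∑ n ∈ Icc 1 x, (m (n + a) : ℝ) * (m (n + a) : ℝ) ≤ x := by
          calc _ ≤ ∑ n ∈ Icc 1 x, (1 : ℝ) := sum_le_sum fun n _ => by
                rw [← sq]
                exact hms _
            _ = x := by simp
        calc _ ≤ (1 / (x : ℝ)) * x := by gcongr
          _ = 1 := by field_simp
          _ ≤ 1 + δ := by linarith
      · rw [if_neg hab, zero_add]
        refine (le_abs_self _).trans (hδ a a.2 b b.2 ?_)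
        intro h
        exact hab (Fin.ext h)
    calc _ ≤ ∑ a : Fin M, ∑ b : Fin M, ((if a = b then (1 : ℝ) else 0) + δ) :=
          sum_le_sum fun a _ => sum_le_sum fun b _ => h8 a b
      _ = M + M * (M * δ) := by
        simp only [sum_add_distrib, sum_ite_eq, mem_univ, if_true, sum_const, card_univ,
          Fintype.card_fin, nsmul_eq_mul, mul_one]
      _ ≤ 2 * M := by nlinarith
  have h10 : (1 / (x : ℝ)) * (H * (H - 1) / M ^ 2 *
      ∑ n ∈ Icc 1 x, (∑ a : Fin M, (m (n + a) : ℝ)) ^ 2) ≤ 2 * H := by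
    rcases Nat.eq_zero_or_pos H with h0 | h0
    · subst h0
      simp
    have hH1 : (1 : ℝ) ≤ H := by exact_mod_cast h0
    have hHM' : (H : ℝ) ≤ M := by exact_mod_cast hHM
    have hc : 0 ≤ (H : ℝ) * (H - 1) / M ^ 2 := by
      apply div_nonneg _ (by positivity)
      nlinarith
    rw [mul_left_comm]
    calc _ ≤ (H : ℝ) * (H - 1) / M ^ 2 * (2 * M) := mul_le_mul_of_nonneg_left h6 hc
      _ = 2 * H * ((H - 1) / M) := by field_simp
      _ ≤ 2 * H * 1 := by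
        apply mul_le_mul_of_nonneg_left _ (by positivity)
        rw [div_le_one hM0]
        linarith
      _ = 2 * H := by ring
  linarith

end Pool.Agent.Y956.TS
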