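import Mathlib

/-!
# Squarefree density in windows, mean version

The lemmas `moebius_sq_eq`, `mob_hasSum`, `sq_tail`, `mob_tail` are copied from the starting files
`Pool/Agent/H382R2/SqFree.lean` and `Pool/Agent/TH266/N4_S2S3.lean`.
-/

set_option autoImplicit false

open Finset

namespace Pool.Agent.Y956.TS

namespace Dens

theorem moebius_sq_eq (n : ℕ) (hn : n ≠ 0) :
    ((ArithmeticFunction.moebius n : ℤ) : ℝ) ^ 2 =
      ∑ d ∈ Finset.Icc 1 n, if d ^ 2 ∣ n then ((ArithmeticFunction.moebius d : ℤ) : ℝ) else 0 := by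
  obtain ⟨a, b, hab, ha⟩ := Nat.sq_mul_squarefree n
  have hb0 : b ≠ 0 := by rintro rfl; apply hn; rw [← hab]; simp
  have ha0 : a ≠ 0 := by rintro rfl; apply hn; rw [← hab]; simp
  have key : ∀ d : ℕ, d ^ 2 ∣ n ↔ d ∣ b := by
    intro d
    constructor
    · intro h
      have hd0 : d ≠ 0 := by
        rintro rfl
        rw [zero_pow two_ne_zero, zero_dvd_iff] at h
        exact hn h
      rw [← Nat.factorization_le_iff_dvd (pow_ne_zero _ hd0) hn] at h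
      rw [← Nat.factorization_le_iff_dvd hd0 hb0]
      intro p
      have h1 := h p
      rw [← hab, Nat.factorization_mul (pow_ne_zero _ hb0) ha0, Nat.factorization_pow,
        Nat.factorization_pow] at h1
      have h2 := ha.natFactorization_le_one p
      simp only [Finsupp.coe_smul, Finsupp.coe_add, Pi.add_apply, Pi.smul_apply, smul_eq_mul] at h1
      omega
    · intro h
      rw [← hab]
      exact Dvd.dvd.mul_right (pow_dvd_pow_of_dvd h 2) a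
  have h1 : (∑ d ∈ Finset.Icc 1 n, if d ^ 2 ∣ n then ((ArithmeticFunction.moebius d : ℤ) : ℝ) else 0)
      = ∑ d ∈ b.divisors, ((ArithmeticFunction.moebius d : ℤ) : ℝ) := by
    rw [← Finset.sum_filter]
    apply Finset.sum_congr _ (fun _ _ => rfl)
    ext d
    simp only [Finset.mem_filter, Finset.mem_Icc, Nat.mem_divisors, key]
    constructor
    · rintro ⟨-, h⟩; exact ⟨h, hb0⟩
    · rintro ⟨h, -⟩
      refine ⟨⟨Nat.pos_of_dvd_of_pos h (Nat.pos_of_ne_zero hb0), ?_⟩, h⟩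
      have h3 : d ≤ b := Nat.le_of_dvd (Nat.pos_of_ne_zero hb0) h
      have h4 : b ∣ n := by rw [← hab]; exact Dvd.dvd.mul_right (dvd_pow_self b two_ne_zero) a
      exact h3.trans (Nat.le_of_dvd (Nat.pos_of_ne_zero hn) h4)
  rw [h1]
  have h2 : (∑ d ∈ b.divisors, (ArithmeticFunction.moebius d : ℤ)) = if b = 1 then 1 else 0 := by
    have := congrArg (fun f => f b) ArithmeticFunction.moebius_mul_coe_zeta
    simp only [ArithmeticFunction.coe_mul_zeta_apply, ArithmeticFunction.one_apply] at this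
    exact this
  have h2' : (∑ d ∈ b.divisors, ((ArithmeticFunction.moebius d : ℤ) : ℝ)) = if b = 1 then 1 else 0 := by
    have := congrArg (fun z : ℤ => (z : ℝ)) h2
    push_cast at this
    exact this
  rw [h2']
  have h3 : ((ArithmeticFunction.moebius n : ℤ) : ℝ) ^ 2 = if Squarefree n then 1 else 0 := by
    have := congrArg (fun z : ℤ => (z : ℝ)) (ArithmeticFunction.moebius_sq (n := n))
    push_cast at this
    exact this
  rw [h3]
  have h4 : Squarefree n ↔ b = 1 := by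
    constructor
    · intro h
      have := h b (by rw [← hab, ← sq]; exact dvd_mul_right _ _)
      exact Nat.isUnit_iff.mp this
    · rintro rfl
      rw [← hab]; simpa using ha
  simp only [h4]

lemma mob_hasSum : HasSum (fun n : ℕ => ((ArithmeticFunction.moebius n : ℤ) : ℝ) / (n:ℝ) ^ 2) (6 / Real.pi ^ 2) := by
  have h2 : (1:ℝ) < (2:ℂ).re := by norm_num
  have h1 := ArithmeticFunction.LSeries_zeta_mul_Lseries_moebius h2
  rw [ArithmeticFunction.LSeries_zeta_eq_riemannZeta h2, riemannZeta_two] at h1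
  have hs := (ArithmeticFunction.LSeriesSummable_moebius_iff (s := 2)).2 h2
  have hs2 : HasSum (LSeries.term (fun n => ((ArithmeticFunction.moebius n : ℤ) : ℂ)) 2) (LSeries (fun n => ((ArithmeticFunction.moebius n : ℤ) : ℂ)) 2) := hs.hasSum
  have hv : LSeries (fun n => ((ArithmeticFunction.moebius n : ℤ) : ℂ)) 2 = ((6 / Real.pi ^ 2 : ℝ) : ℂ) := by
    have hpi : (Real.pi : ℂ) ≠ 0 := by exact_mod_cast Real.pi_ne_zero
    have : ((Real.pi:ℂ) ^ 2 / 6) ≠ 0 := by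
      apply div_ne_zero (pow_ne_zero _ hpi) (by norm_num)
    have h3 : LSeries (fun n => ((ArithmeticFunction.moebius n : ℤ) : ℂ)) 2 = ((Real.pi:ℂ) ^ 2 / 6)⁻¹ := by
      apply eq_inv_of_mul_eq_one_right
      exact h1
    rw [h3]; push_cast; rw [inv_div]
  rw [hv] at hs2
  have h4 : (LSeries.term (fun n => ((ArithmeticFunction.moebius n : ℤ) : ℂ)) 2) =
      fun n : ℕ => ((((ArithmeticFunction.moebius n : ℤ) : ℝ) / (n:ℝ) ^ 2 : ℝ) : ℂ) := by
    funext n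
    rw [LSeries.term_def]
    split_ifs with h
    · simp [h]
    · push_cast
      congr 1
      norm_cast
  rw [h4] at hs2
  exact Complex.hasSum_ofReal.1 hs2

lemma sq_tail (N M : ℕ) (hN : 1 ≤ N) (hNM : N ≤ M) : ∑ n ∈ Ioc N M, (1:ℝ) / (n:ℝ)^2 ≤ 1 / N - 1 / M := by
  induction M, hNM using Nat.le_induction with
  | base => simp
  | succ M hM ih =>
    rw [Finset.sum_Ioc_succ_top (by omega)]
    have hM0 : (0:ℝ) < M := by exact_mod_cast (by omega : 0 < M)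
    have : (1:ℝ) / ((M+1:ℕ):ℝ)^2 ≤ 1 / M - 1 / ((M+1:ℕ):ℝ) := by
      push_cast
      rw [div_sub_div _ _ hM0.ne' (by positivity), div_le_div_iff₀ (by positivity) (by positivity)]
      nlinarith
    linarith

lemma mob_tail (N : ℕ) (hN : 1 ≤ N) :
    |(∑ e ∈ Icc 1 N, ((ArithmeticFunction.moebius e : ℤ) : ℝ) / (e:ℝ) ^ 2) - 6 / Real.pi ^ 2| ≤ (1:ℝ) / N := by
  have h1 := mob_hasSum.tendsto_sum_nat
  have h2 : Filter.Tendsto (fun M : ℕ => |(∑ e ∈ Icc 1 N, ((ArithmeticFunction.moebius e : ℤ) : ℝ) / (e:ℝ) ^ 2) -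
      ∑ i ∈ range M, ((ArithmeticFunction.moebius i : ℤ) : ℝ) / (i:ℝ) ^ 2|) Filter.atTop
      (nhds |(∑ e ∈ Icc 1 N, ((ArithmeticFunction.moebius e : ℤ) : ℝ) / (e:ℝ) ^ 2) - 6 / Real.pi ^ 2|) :=
    (tendsto_const_nhds.sub h1).abs
  apply le_of_tendsto h2
  filter_upwards [Filter.eventually_ge_atTop (N+1)] with M hM
  obtain ⟨K, rfl⟩ : ∃ K, M = K + 1 := ⟨M - 1, by omega⟩
  have h3 : ∑ i ∈ range (K+1), ((ArithmeticFunction.moebius i : ℤ) : ℝ) / (i:ℝ) ^ 2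
      = (∑ e ∈ Icc 1 N, ((ArithmeticFunction.moebius e : ℤ) : ℝ) / (e:ℝ) ^ 2) +
        ∑ e ∈ Ioc N K, ((ArithmeticFunction.moebius e : ℤ) : ℝ) / (e:ℝ) ^ 2 := by
    have hd : range (K+1) = insert 0 (Icc 1 N ∪ Ioc N K) := by
      ext x; simp only [mem_range, mem_insert, mem_union, mem_Icc, mem_Ioc]; omega
    rw [hd, Finset.sum_insert (by simp), Finset.sum_union]
    · simp
    · rw [Finset.disjoint_left]; intro x hx hy; simp only [mem_Icc, mem_Ioc] at hx hy; omega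
  rw [h3]
  have h4 : ∀ a b : ℝ, |a - (a + b)| = |b| := by intro a b; rw [← abs_neg b]; congr 1; ring
  rw [h4]
  refine (Finset.abs_sum_le_sum_abs _ _).trans ?_
  calc ∑ e ∈ Ioc N K, |((ArithmeticFunction.moebius e : ℤ) : ℝ) / (e:ℝ) ^ 2|
      ≤ ∑ e ∈ Ioc N K, (1:ℝ) / (e:ℝ)^2 := by
        apply Finset.sum_le_sum; intro e _
        rw [abs_div, abs_of_nonneg (by positivity : (0:ℝ) ≤ (e:ℝ)^2)]
        apply div_le_div_of_nonneg_right _ (by positivity)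
        exact_mod_cast ArithmeticFunction.abs_moebius_le_one
    _ ≤ 1 / N - 1 / K := sq_tail N K hN (by omega)
    _ ≤ 1 / N := by have : (0:ℝ) ≤ 1 / K := by positivity
                    linarith

theorem cnt (k t M : ℕ) : ∑ a ∈ range M, (if k ∣ t + 1 + a then (1 : ℝ) else 0) =
    (((t + M) / k : ℕ) : ℝ) - ((t / k : ℕ) : ℝ) := by
  induction M with
  | zero => simp
  | succ M ih =>
    rw [Finset.sum_range_succ, ih]
    have h : (t + (M + 1)) / k = (t + M) / k + if k ∣ t + M + 1 then 1 else 0 := by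
      rw [← add_assoc, Nat.succ_div]
    rw [h]
    have h2 : t + 1 + M = t + M + 1 := by ring
    rw [h2]
    split_ifs
    · rw [Nat.cast_add, Nat.cast_one]; ring
    · rw [add_zero, add_zero]

theorem cnt_abs {k : ℕ} (hk : 1 ≤ k) (t M : ℕ) :
    |(∑ a ∈ range M, (if k ∣ t + 1 + a then (1 : ℝ) else 0)) - (M : ℝ) / k| ≤ 1 := by
  rw [cnt]
  have k0 : (0 : ℝ) < k := by exact_mod_cast hk
  have f1 : ∀ s : ℕ, ((s / k : ℕ) : ℝ) ≤ s / k := fun s => Nat.cast_div_le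
  have f2 : ∀ s : ℕ, (s : ℝ) / k ≤ ((s / k : ℕ) : ℝ) + 1 := by
    intro s
    rw [div_le_iff₀ k0]
    have h3 : (s : ℝ) ≤ ((k * (s / k + 1) : ℕ) : ℝ) := by
      exact_mod_cast (Nat.lt_mul_div_succ s hk).le
    rw [Nat.cast_mul, Nat.cast_add, Nat.cast_one] at h3
    linarith
  have e : ((t + M : ℕ) : ℝ) / k = t / k + M / k := by
    rw [Nat.cast_add, add_div]
  have g1 := f1 (t + M)
  have g2 := f2 (t + M)
  have g3 := f1 t
  have g4 := f2 t
  rw [abs_le]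
  constructor <;> linarith

theorem cnt_le {k : ℕ} (a x : ℕ) :
    ∑ n ∈ Icc 1 x, (if k ∣ n + a then (1 : ℝ) else 0) ≤ ((a + x : ℕ) : ℝ) / k := by
  have h : ∑ n ∈ Icc 1 x, (if k ∣ n + a then (1 : ℝ) else 0) =
      ∑ b ∈ range x, (if k ∣ a + 1 + b then (1 : ℝ) else 0) := by
    induction x with
    | zero => simp
    | succ x ih =>
      rw [Finset.sum_Icc_succ_top (by omega), ih, Finset.sum_range_succ]
      have e : x + 1 + a = a + 1 + x := by ring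
      rw [e]
  rw [h, cnt]
  have h1 : (((a + x) / k : ℕ) : ℝ) ≤ ((a + x : ℕ) : ℝ) / k := Nat.cast_div_le
  have h2 : (0 : ℝ) ≤ ((a / k : ℕ) : ℝ) := Nat.cast_nonneg _
  linarith

/-- the real Moebius function -/
noncomputable def mu (d : ℕ) : ℝ := ((ArithmeticFunction.moebius d : ℤ) : ℝ)

theorem mu_abs (d : ℕ) : |mu d| ≤ 1 := by
  unfold mu
  exact_mod_cast ArithmeticFunction.abs_moebius_le_one

theorem mu_split {D K m : ℕ} (hm : 1 ≤ m) (hmK : m ≤ K) (hDK : D ≤ K) :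
    mu m ^ 2 = (∑ d ∈ Icc 1 D, (if d ^ 2 ∣ m then mu d else 0)) +
      ∑ d ∈ Ioc D K, (if d ^ 2 ∣ m then mu d else 0) := by
  have h1 : mu m ^ 2 = ∑ d ∈ Icc 1 m, (if d ^ 2 ∣ m then mu d else 0) :=
    moebius_sq_eq m (by omega)
  have h2 : ∑ d ∈ Icc 1 m, (if d ^ 2 ∣ m then mu d else 0) =
      ∑ d ∈ Icc 1 K, (if d ^ 2 ∣ m then mu d else 0) := by
    refine Finset.sum_subset (Finset.Icc_subset_Icc_right hmK) fun d hd hd' => ?_
    rw [if_neg]
    intro h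
    apply hd'
    rw [Finset.mem_Icc] at hd ⊢
    exact ⟨hd.1, Nat.le_of_dvd (by omega) (dvd_trans (dvd_pow_self d two_ne_zero) h)⟩
  have h3 : Icc 1 K = Icc 1 D ∪ Ioc D K := by
    ext d
    simp only [mem_union, mem_Icc, mem_Ioc]
    omega
  have h4 : Disjoint (Icc 1 D) (Ioc D K) := by
    rw [Finset.disjoint_left]
    intro d hd hd'
    simp only [mem_Icc, mem_Ioc] at hd hd'
    omega
  rw [h1, h2, h3, Finset.sum_union h4]

theorem point {D K M n : ℕ} (hD : 1 ≤ D) (hM : 1 ≤ M) (hn : 1 ≤ n) (hK : n + M ≤ K)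
    (hDK : D ≤ K) :
    |(1 / (M : ℝ)) * ∑ a ∈ range M, mu (n + a) ^ 2 - 6 / Real.pi ^ 2| ≤
      (D : ℝ) / M + 1 / D + (1 / (M : ℝ)) * ∑ a ∈ range M, ∑ d ∈ Ioc D K,
        (if d ^ 2 ∣ n + a then (1 : ℝ) else 0) := by
  obtain ⟨t, rfl⟩ : ∃ t, n = t + 1 := ⟨n - 1, by omega⟩
  have M0 : (0 : ℝ) < M := by exact_mod_cast hM
  have hsp : ∑ a ∈ range M, mu (t + 1 + a) ^ 2 =
      (∑ a ∈ range M, ∑ d ∈ Icc 1 D, (if d ^ 2 ∣ t + 1 + a then mu d else 0)) +
        ∑ a ∈ range M, ∑ d ∈ Ioc D K, (if d ^ 2 ∣ t + 1 + a then mu d else 0) := by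
    rw [← Finset.sum_add_distrib]
    refine Finset.sum_congr rfl fun a ha => ?_
    rw [Finset.mem_range] at ha
    exact mu_split (by omega) (by omega) hDK
  have hA : |(1 / (M : ℝ)) * (∑ a ∈ range M, ∑ d ∈ Icc 1 D,
      (if d ^ 2 ∣ t + 1 + a then mu d else 0)) - ∑ d ∈ Icc 1 D, mu d / (d : ℝ) ^ 2| ≤
        (D : ℝ) / M := by
    rw [Finset.sum_comm, Finset.mul_sum, ← Finset.sum_sub_distrib]
    refine (Finset.abs_sum_le_sum_abs _ _).trans ?_
    have h5 : ∀ d ∈ Icc 1 D, |1 / (M : ℝ) * (∑ a ∈ range M,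
        (if d ^ 2 ∣ t + 1 + a then mu d else 0)) - mu d / (d : ℝ) ^ 2| ≤ 1 / (M : ℝ) := by
      intro d hd
      have hd1 : 1 ≤ d := (Finset.mem_Icc.1 hd).1
      have d0 : (0 : ℝ) < d := by exact_mod_cast hd1
      have h6 : ∑ a ∈ range M, (if d ^ 2 ∣ t + 1 + a then mu d else 0) =
          mu d * ∑ a ∈ range M, (if d ^ 2 ∣ t + 1 + a then (1 : ℝ) else 0) := by
        rw [Finset.mul_sum]
        refine Finset.sum_congr rfl fun a _ => ?_
        split_ifs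
        · rw [mul_one]
        · rw [mul_zero]
      have h7 := cnt_abs (k := d ^ 2) (Nat.one_le_pow 2 d hd1) t M
      rw [h6]
      rw [Nat.cast_pow] at h7
      have h8 : 1 / (M : ℝ) * (mu d * ∑ a ∈ range M,
          (if d ^ 2 ∣ t + 1 + a then (1 : ℝ) else 0)) - mu d / (d : ℝ) ^ 2 =
          mu d * ((1 / (M : ℝ)) * ((∑ a ∈ range M,
            (if d ^ 2 ∣ t + 1 + a then (1 : ℝ) else 0)) - (M : ℝ) / (d : ℝ) ^ 2)) := by
        field_simp
      rw [h8, abs_mul, abs_mul, abs_of_pos (one_div_pos.2 M0)]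
      calc |mu d| * (1 / (M : ℝ) * |(∑ a ∈ range M,
            (if d ^ 2 ∣ t + 1 + a then (1 : ℝ) else 0)) - (M : ℝ) / (d : ℝ) ^ 2|) ≤
          1 * (1 / (M : ℝ) * 1) :=
            mul_le_mul (mu_abs d) (mul_le_mul_of_nonneg_left h7 (one_div_pos.2 M0).le)
              (mul_nonneg (one_div_pos.2 M0).le (abs_nonneg _)) zero_le_one
        _ = 1 / (M : ℝ) := by ring
    refine (Finset.sum_le_sum h5).trans (le_of_eq ?_)
    rw [Finset.sum_const, Nat.card_Icc, nsmul_eq_mul, Nat.add_sub_cancel]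
    ring
  have hS : |(∑ d ∈ Icc 1 D, mu d / (d : ℝ) ^ 2) - 6 / Real.pi ^ 2| ≤ 1 / (D : ℝ) := mob_tail D hD
  have hB : |(1 / (M : ℝ)) * ∑ a ∈ range M, ∑ d ∈ Ioc D K,
      (if d ^ 2 ∣ t + 1 + a then mu d else 0)| ≤ (1 / (M : ℝ)) * ∑ a ∈ range M, ∑ d ∈ Ioc D K,
        (if d ^ 2 ∣ t + 1 + a then (1 : ℝ) else 0) := by
    rw [abs_mul, abs_of_pos (one_div_pos.2 M0)]
    refine mul_le_mul_of_nonneg_left ?_ (one_div_pos.2 M0).le
    refine (Finset.abs_sum_le_sum_abs _ _).trans (Finset.sum_le_sum fun a _ => ?_)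
    refine (Finset.abs_sum_le_sum_abs _ _).trans (Finset.sum_le_sum fun d _ => ?_)
    split_ifs
    · exact mu_abs d
    · rw [abs_zero]
  rw [hsp, mul_add]
  rw [abs_le] at hA hS hB ⊢
  obtain ⟨a1, a2⟩ := hA
  obtain ⟨b1, b2⟩ := hS
  obtain ⟨c1, c2⟩ := hB
  constructor <;> linarith

theorem tail_sum {D K M x : ℕ} (hD : 1 ≤ D) (hx : 1 ≤ x) (hM : 1 ≤ M) (hMx : M ≤ x)
    (hDK : D ≤ K) :
    (1 / (x : ℝ)) * ∑ n ∈ Icc 1 x, ((1 / (M : ℝ)) * ∑ a ∈ range M, ∑ d ∈ Ioc D K,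
        (if d ^ 2 ∣ n + a then (1 : ℝ) else 0)) ≤ 2 / D := by
  have M0 : (0 : ℝ) < M := by exact_mod_cast hM
  have x0 : (0 : ℝ) < x := by exact_mod_cast hx
  have D0 : (0 : ℝ) < D := by exact_mod_cast hD
  have hMx' : (M : ℝ) ≤ x := by exact_mod_cast hMx
  have h1 : ∑ n ∈ Icc 1 x, ((1 / (M : ℝ)) * ∑ a ∈ range M, ∑ d ∈ Ioc D K,
      (if d ^ 2 ∣ n + a then (1 : ℝ) else 0)) = (1 / (M : ℝ)) * ∑ a ∈ range M, ∑ d ∈ Ioc D K,
        ∑ n ∈ Icc 1 x, (if d ^ 2 ∣ n + a then (1 : ℝ) else 0) := by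
    rw [← Finset.mul_sum, Finset.sum_comm]
    congr 1
    refine Finset.sum_congr rfl fun a _ => ?_
    rw [Finset.sum_comm]
  have h2 : ∀ a ∈ range M, ∑ d ∈ Ioc D K,
      ∑ n ∈ Icc 1 x, (if d ^ 2 ∣ n + a then (1 : ℝ) else 0) ≤ (2 * (x : ℝ)) * (1 / D) := by
    intro a ha
    have ha' : a ≤ x := by
      rw [Finset.mem_range] at ha
      omega
    have ha2 : (a : ℝ) ≤ x := by exact_mod_cast ha'
    have h3 : ∀ d ∈ Ioc D K, ∑ n ∈ Icc 1 x, (if d ^ 2 ∣ n + a then (1 : ℝ) else 0) ≤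
        (2 * (x : ℝ)) * (1 / (d : ℝ) ^ 2) := by
      intro d hd
      refine (cnt_le (k := d ^ 2) a x).trans ?_
      rw [Nat.cast_add, Nat.cast_pow, mul_one_div]
      exact div_le_div_of_nonneg_right (by linarith) (by positivity)
    refine (Finset.sum_le_sum h3).trans ?_
    rw [← Finset.mul_sum]
    refine mul_le_mul_of_nonneg_left ?_ (by positivity)
    have h4 := sq_tail D K hD hDK
    have h5 : (0 : ℝ) ≤ 1 / K := by positivity
    linarith
  rw [h1]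
  have h6 : (1 / (M : ℝ)) * ∑ a ∈ range M, ∑ d ∈ Ioc D K,
        ∑ n ∈ Icc 1 x, (if d ^ 2 ∣ n + a then (1 : ℝ) else 0) ≤ (2 * (x : ℝ)) * (1 / D) := by
    have h7 := Finset.sum_le_sum h2
    rw [Finset.sum_const, Finset.card_range, nsmul_eq_mul] at h7
    calc _ ≤ (1 / (M : ℝ)) * (M * ((2 * (x : ℝ)) * (1 / D))) :=
          mul_le_mul_of_nonneg_left h7 (one_div_pos.2 M0).le
      _ = (2 * (x : ℝ)) * (1 / D) := by field_simp
  calc _ ≤ (1 / (x : ℝ)) * ((2 * (x : ℝ)) * (1 / D)) :=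
        mul_le_mul_of_nonneg_left h6 (one_div_pos.2 x0).le
    _ = 2 / D := by field_simp

end Dens

open Dens in
theorem dens (ε : ℝ) (hε : 0 < ε) : ∃ M₀ : ℕ, 1 ≤ M₀ ∧ ∀ M : ℕ, M₀ ≤ M → ∃ x₀ : ℕ, ∀ x : ℕ, x₀ ≤ x →
    (1 / (x : ℝ)) * ∑ n ∈ Icc 1 x, |(1 / (M : ℝ)) * ∑ a ∈ range M, ((ArithmeticFunction.moebius (n + a) : ℤ) : ℝ) ^ 2 - 6 / Real.pi ^ 2| ≤ ε := by
  obtain ⟨D', hD'⟩ := exists_nat_ge (6 / ε)
  obtain ⟨D, hDd⟩ : ∃ D, D = D' + 1 := ⟨_, rfl⟩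
  have hD : 1 ≤ D := by omega
  have D0 : (0 : ℝ) < D := by exact_mod_cast hD
  have hD6 : 6 / ε ≤ D := hD'.trans (by rw [hDd]; push_cast; linarith)
  have h3D : 3 / (D : ℝ) ≤ ε / 2 := by
    rw [div_le_iff₀ hε] at hD6
    rw [div_le_iff₀ D0]
    linarith
  obtain ⟨M', hM'⟩ := exists_nat_ge (2 * D / ε)
  refine ⟨M' + 1, by omega, fun M hM => ⟨M + D, fun x hx => ?_⟩⟩
  have hM1 : 1 ≤ M := by omega
  have M0 : (0 : ℝ) < M := by exact_mod_cast hM1
  have x0 : (0 : ℝ) < x := by exact_mod_cast (by omega : 0 < x)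
  have hMM : 2 * D / ε ≤ M := hM'.trans (by exact_mod_cast (by omega : M' ≤ M))
  have hDM : (D : ℝ) / M ≤ ε / 2 := by
    rw [div_le_iff₀ hε] at hMM
    rw [div_le_iff₀ M0]
    linarith
  have h1 : ∀ n ∈ Icc 1 x, |(1 / (M : ℝ)) * ∑ a ∈ range M,
      ((ArithmeticFunction.moebius (n + a) : ℤ) : ℝ) ^ 2 - 6 / Real.pi ^ 2| ≤
      (D : ℝ) / M + 1 / D + (1 / (M : ℝ)) * ∑ a ∈ range M, ∑ d ∈ Ioc D (x + M),
        (if d ^ 2 ∣ n + a then (1 : ℝ) else 0) := by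
    intro n hn
    rw [Finset.mem_Icc] at hn
    exact point hD hM1 hn.1 (by omega) (by omega)
  have h2 := Finset.sum_le_sum h1
  rw [Finset.sum_add_distrib, Finset.sum_const, Nat.card_Icc, nsmul_eq_mul,
    Nat.add_sub_cancel] at h2
  have h3 := mul_le_mul_of_nonneg_left h2 (one_div_pos.2 x0).le
  have h4 := tail_sum (D := D) (K := x + M) (M := M) (x := x) hD (by omega) hM1 (by omega)
    (by omega)
  rw [mul_add] at h3
  have h5 : 1 / (x : ℝ) * ((x : ℝ) * ((D : ℝ) / M + 1 / D)) = (D : ℝ) / M + 1 / D := by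
    field_simp
  rw [h5] at h3
  have h6 : 1 / (D : ℝ) + 2 / D = 3 / D := by ring
  linarith

end Pool.Agent.Y956.TS
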