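import Pool.Agent.Y956.CK.Inst
import Pool.Agent.Y958.TC.Two
import Pool.Agent.Y304.U.Avc
import Pool.Agent.Y304.U.Pw

/-!
# Correlations of the Möbius function at all pairs of places of a window
The closure properties of logarithmic density zero follow `Y958/U/Aux1` (helper958).
-/

set_option autoImplicit false

namespace Pool.Agent.Y956.TS

open Finset Filter Topology
open Pool.Agent.Y958.U (LZ)
open Pool.Agent.Y958.TC (Av)

lemma LZ_sub {E F : Set ℕ} (h : E ⊆ F) (hF : LZ F) : LZ E := by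
  classical
  unfold LZ at *
  refine squeeze_zero' ?_ ?_ hF
  · filter_upwards [eventually_ge_atTop 1] with X hX
    apply div_nonneg _ (Real.log_natCast_nonneg _)
    exact sum_nonneg fun n _ => by split_ifs <;> positivity
  · filter_upwards [eventually_ge_atTop 1] with X hX
    apply div_le_div_of_nonneg_right _ (Real.log_natCast_nonneg _)
    apply sum_le_sum
    intro n _
    by_cases hn : n ∈ E
    · rw [if_pos hn, if_pos (h hn)]
    · rw [if_neg hn]
      split_ifs <;> positivity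

lemma LZ_union {E F : Set ℕ} (hE : LZ E) (hF : LZ F) : LZ (E ∪ F) := by
  classical
  unfold LZ at *
  have h := hE.add hF
  rw [add_zero] at h
  refine squeeze_zero' ?_ ?_ h
  · filter_upwards [eventually_ge_atTop 1] with X hX
    apply div_nonneg _ (Real.log_natCast_nonneg _)
    exact sum_nonneg fun n _ => by split_ifs <;> positivity
  · filter_upwards [eventually_ge_atTop 1] with X hX
    rw [← add_div, ← sum_add_distrib]
    apply div_le_div_of_nonneg_right _ (Real.log_natCast_nonneg _)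
    apply sum_le_sum
    intro n _
    have h0 : (0 : ℝ) ≤ 1 / n := by positivity
    by_cases hn : n ∈ E
    · rw [if_pos hn, if_pos (Set.mem_union_left F hn)]
      split_ifs <;> linarith
    · by_cases hn' : n ∈ F
      · rw [if_neg hn, if_pos hn', if_pos (Set.mem_union_right E hn')]
        linarith
      · rw [if_neg hn, if_neg hn', if_neg]
        · simp
        · rintro (h1 | h1)
          · exact hn h1
          · exact hn' h1

lemma LZ_empty : LZ (∅ : Set ℕ) := by
  unfold LZ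
  simp

lemma LZ_fin {ι : Type} (s : Finset ι) (E : ι → Set ℕ) (h : ∀ i ∈ s, LZ (E i)) :
    LZ {n | ∃ i ∈ s, n ∈ E i} := by
  classical
  induction s using Finset.induction_on with
  | empty => simpa using LZ_empty
  | insert a s ha ih =>
    refine LZ_sub ?_ (LZ_union (h a (mem_insert_self a s)) (ih fun i hi => h i (mem_insert_of_mem hi)))
    rintro n ⟨i, hi, hn⟩
    rw [mem_insert] at hi
    rcases hi with rfl | hi
    · exact Or.inl hn
    · exact Or.inr ⟨i, hi, hn⟩

/-- finite sets -/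
lemma LZ_bdd (E : Set ℕ) (K : ℕ) (hK : ∀ n ∈ E, n < K) : LZ E := by
  classical
  unfold LZ
  have h1 : Tendsto (fun X : ℕ => (∑ n ∈ range K, (1 : ℝ) / n) / Real.log X) atTop (𝓝 0) := by
    apply Tendsto.div_atTop tendsto_const_nhds
    exact Real.tendsto_log_atTop.comp tendsto_natCast_atTop_atTop
  refine squeeze_zero' ?_ ?_ h1
  · filter_upwards [eventually_ge_atTop 1] with X hX
    apply div_nonneg _ (Real.log_natCast_nonneg _)
    exact sum_nonneg fun n _ => by split_ifs <;> positivity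
  · filter_upwards [eventually_ge_atTop 1] with X hX
    apply div_le_div_of_nonneg_right _ (Real.log_natCast_nonneg _)
    refine le_trans (le_of_eq (sum_filter _ _).symm) ?_
    apply sum_le_sum_of_subset_of_nonneg
    · intro n hn
      rw [mem_filter] at hn
      rw [mem_range]
      exact hK n hn.2
    · intro n _ _
      positivity

/-- the Möbius function with real values -/
noncomputable def mr (n : ℕ) : ℝ := ((ArithmeticFunction.moebius n : ℤ) : ℝ)

lemma mr_abs (n : ℕ) : |mr n| ≤ 1 := by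
  unfold mr
  exact_mod_cast ArithmeticFunction.abs_moebius_le_one

lemma one_pair (a h : ℕ) (hh : 1 ≤ h) (δ : ℝ) (hδ : 0 < δ) :
    LZ {x | δ < |(1 / (x : ℝ)) * ∑ n ∈ Icc 1 x, mr (n + a) * mr (n + a + h)|} := by
  set φ : ℕ → ℝ := fun n => mr n * mr (n + h) with hφ
  have hφ1 : ∀ n, |φ n| ≤ 1 := fun n => by
    rw [hφ]; beta_reduce; rw [abs_mul]; exact mul_le_one₀ (mr_abs _) (abs_nonneg _) (mr_abs _)
  have h0 := Pool.Agent.Y958.TC.two (Pool.Agent.Y304.U.avc Pool.Agent.Y304.U.pw)
    (fun n => ArithmeticFunction.moebius n) Pool.Agent.TH823.MRS.mob_bdd Pool.Agent.TH823.MRS.mob_flip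
    Pool.Agent.TH823.MRS.mu_E h hh 1 le_rfl (fun _ => 1) (fun _ => by simp) (fun _ => rfl) (δ / 2) (by positivity)
  obtain ⟨K, hK⟩ := exists_nat_gt (4 * (1 + (a : ℝ)) / δ)
  refine LZ_sub ?_ (LZ_union h0 (LZ_bdd {x | x < K + 1} (K + 1) fun n hn => hn))
  intro x hx
  by_cases hxK : x < K + 1
  · exact Or.inr hxK
  left
  show δ / 2 < |Av x (fun n => 1 * mr n * mr (n + h))|
  have hx' : δ < |(1 / (x : ℝ)) * ∑ n ∈ Icc 1 x, mr (n + a) * mr (n + a + h)| := hx
  have hxK' : (K : ℝ) + 1 ≤ x := by exact_mod_cast not_lt.1 hxK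
  have hx0 : (0 : ℝ) < x := by
    have : (0 : ℝ) ≤ K := by positivity
    linarith
  have e1 : ∑ n ∈ Icc 1 x, mr (n + a) * mr (n + a + h) = ∑ i ∈ range x, φ ((1 + a) + i) := by
    have : Icc 1 x = Ico 1 (x + 1) := by ext; simp
    rw [this, sum_Ico_eq_sum_range, Nat.add_sub_cancel]
    apply sum_congr rfl
    intro i _
    rw [hφ]; beta_reduce
    rw [show 1 + i + a = 1 + a + i by ring]
  have e2 : ∑ i ∈ range ((1 + a) + x), φ i = ∑ i ∈ range (1 + a), φ i + ∑ i ∈ range x, φ ((1 + a) + i) :=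
    sum_range_add φ (1 + a) x
  have e3 : ∑ i ∈ range (x + (1 + a)), φ i = ∑ i ∈ range x, φ i + ∑ i ∈ range (1 + a), φ (x + i) :=
    sum_range_add φ x (1 + a)
  rw [add_comm x (1 + a)] at e3
  have e4 : |∑ i ∈ range (1 + a), φ i| ≤ 1 + a := by
    refine (abs_sum_le_sum_abs _ _).trans ((sum_le_sum fun i _ => hφ1 i).trans ?_)
    simp
  have e5 : |∑ i ∈ range (1 + a), φ (x + i)| ≤ 1 + a := by
    refine (abs_sum_le_sum_abs _ _).trans ((sum_le_sum fun i _ => hφ1 (x + i)).trans ?_)
    simp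
  have e6 : Av x (fun n => 1 * mr n * mr (n + h)) = (1 / (x : ℝ)) * ∑ i ∈ range x, φ i := by
    unfold Av
    rw [div_eq_inv_mul, one_div]
    congr 1
    apply sum_congr rfl
    intro i _
    show 1 * mr i * mr (i + h) = mr i * mr (i + h)
    rw [one_mul]
  rw [e6]
  rw [e1] at hx'
  have e7 : ∑ i ∈ range x, φ ((1 + a) + i) = ∑ i ∈ range x, φ i +
      (∑ i ∈ range (1 + a), φ (x + i) - ∑ i ∈ range (1 + a), φ i) := by linarith
  rw [e7, mul_add] at hx'
  have e8 : |(1 / (x : ℝ)) * (∑ i ∈ range (1 + a), φ (x + i) - ∑ i ∈ range (1 + a), φ i)| ≤ δ / 2 := by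
    rw [abs_mul, abs_of_pos (show (0 : ℝ) < 1 / x by positivity), one_div, inv_mul_le_iff₀ hx0]
    have e9 : |∑ i ∈ range (1 + a), φ (x + i) - ∑ i ∈ range (1 + a), φ i| ≤ 2 * (1 + a) := by
      refine (abs_sub _ _).trans ?_
      linarith
    refine e9.trans ?_
    rw [div_lt_iff₀ hδ] at hK
    nlinarith
  have e10 := abs_add_le ((1 / (x : ℝ)) * ∑ i ∈ range x, φ i)
    ((1 / (x : ℝ)) * (∑ i ∈ range (1 + a), φ (x + i) - ∑ i ∈ range (1 + a), φ i))
  linarith

theorem pairs (M : ℕ) (δ : ℝ) (hδ : 0 < δ) :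
    LZ {x | ∃ a < M, ∃ b < M, a ≠ b ∧ δ < |(1 / (x : ℝ)) * ∑ n ∈ Icc 1 x, mr (n + a) * mr (n + b)|} := by
  have h1 := LZ_fin ((range M) ×ˢ (Icc 1 M))
    (fun p => {x | δ < |(1 / (x : ℝ)) * ∑ n ∈ Icc 1 x, mr (n + p.1) * mr (n + p.1 + p.2)|}) fun p hp => by
      rw [mem_product, mem_Icc] at hp
      exact one_pair p.1 p.2 hp.2.1 δ hδ
  refine LZ_sub ?_ h1
  rintro x ⟨a, ha, b, hb, hab, hx⟩
  rcases lt_or_gt_of_ne hab with h | h
  · refine ⟨(a, b - a), ?_, ?_⟩
    · rw [mem_product, mem_range, mem_Icc]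
      exact ⟨ha, by omega, by omega⟩
    · show δ < |(1 / (x : ℝ)) * ∑ n ∈ Icc 1 x, mr (n + a) * mr (n + a + (b - a))|
      have : ∀ n, n + a + (b - a) = n + b := fun n => by omega
      simp only [this]
      exact hx
  · refine ⟨(b, a - b), ?_, ?_⟩
    · rw [mem_product, mem_range, mem_Icc]
      exact ⟨hb, by omega, by omega⟩
    · show δ < |(1 / (x : ℝ)) * ∑ n ∈ Icc 1 x, mr (n + b) * mr (n + b + (a - b))|
      have : ∀ n, n + b + (a - b) = n + a := fun n => by omega
      simp only [this]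
      have e : ∀ n, mr (n + b) * mr (n + a) = mr (n + a) * mr (n + b) := fun n => mul_comm _ _
      simp only [e]
      exact hx

end Pool.Agent.Y956.TS
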