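import Pool.Agent.Y956.TS.Mean
import Pool.Agent.Y956.TS.Pair
import Pool.Agent.Y956.TS.Dens

/-!
# The characteristic functions of Möbius sums over tuples of places
-/

set_option autoImplicit false

namespace Pool.Agent.Y956.TS

open Finset Filter Topology

/-- the sum of the Möbius function over the places `n + s_j` -/
def placeSum {H M : ℕ} (s : Fin H → Fin M) (n : ℕ) : ℤ :=
  ∑ j, ArithmeticFunction.moebius (n + s j)

/-- the characteristic function at `t` of the normalised sum, `n ≤ x` uniform -/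
noncomputable def charFun {H M : ℕ} (s : Fin H → Fin M) (t : ℝ) (x : ℕ) : ℂ :=
  (1 / (x : ℂ)) * ∑ n ∈ Icc 1 x,
    Complex.exp (Complex.I * ((t * ((placeSum s n : ℝ) / Real.sqrt (H / (Real.pi ^ 2 / 6))) : ℝ) : ℂ))

/-- convergence of the characteristic functions on average over the tuples, at almost all scales -/
theorem chf (t ε : ℝ) (hε : 0 < ε) : ∃ κ H₀ : ℕ, ∀ H M : ℕ, H₀ ≤ H → κ * H ≤ M →
    Pool.Agent.Y958.U.LZ {x : ℕ | ε < (1 / (M : ℝ) ^ H) * ∑ s : Fin H → Fin M,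
      ‖charFun s t x - ((Real.exp (-(t ^ 2 / 2)) : ℝ) : ℂ)‖} := by
  classical
  set c : ℝ := 6 / Real.pi ^ 2 with hcd
  have hc : 0 < c := by positivity
  set η : ℝ := ε ^ 2 * c / (96 * (t ^ 2 + 1)) with hη
  have hη0 : 0 < η := by positivity
  obtain ⟨M₀, hM₀, hD⟩ := dens η hη0
  obtain ⟨κ, hκ⟩ := exists_nat_gt (32 * t ^ 2 / (c * ε ^ 2))
  obtain ⟨H1, hH1⟩ := exists_nat_gt (t ^ 2 / c)
  obtain ⟨H2, hH2⟩ := exists_nat_gt (320 * t ^ 4 / (c ^ 2 * ε ^ 2))
  refine ⟨κ + 1, M₀ + H1 + H2 + 1, fun H M hH hM => ?_⟩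
  have hHM : H ≤ M := le_trans (Nat.le_mul_of_pos_left H (Nat.succ_pos κ)) hM
  have hM1 : 1 ≤ M := by omega
  have hMM : M₀ ≤ M := by omega
  obtain ⟨x₀, hx₀⟩ := hD M hMM
  have hM0 : (0 : ℝ) < M := by exact_mod_cast hM1
  have hH0 : (0 : ℝ) < H := by
    have : 1 ≤ H := by omega
    exact_mod_cast this
  have hp := pairs M (1 / (M : ℝ)) (by positivity)
  have hbad := LZ_union hp (LZ_bdd {x | x < x₀ + 1} (x₀ + 1) fun n hn => hn)
  -- the angle
  set θ : ℝ := t / Real.sqrt (H * c) with hθd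
  have hs0 : 0 < Real.sqrt (H * c) := Real.sqrt_pos.2 (by positivity)
  have hs2 : Real.sqrt (H * c) ^ 2 = H * c := Real.sq_sqrt (by positivity)
  have hθ2 : θ ^ 2 = t ^ 2 / (H * c) := by rw [hθd, div_pow, hs2]
  have hHθ : (H : ℝ) * θ ^ 2 * c = t ^ 2 := by
    rw [hθ2]; field_simp
  have hHc : t ^ 2 ≤ H * c := by
    have h1 : (H1 : ℝ) ≤ H := by
      have : H1 ≤ H := by omega
      exact_mod_cast this
    rw [div_lt_iff₀ hc] at hH1
    nlinarith
  have hθ1 : |θ| ≤ 1 := by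
    rw [← sq_le_one_iff_abs_le_one, hθ2, div_le_one (by positivity)]
    exact hHc
  have hθ4 : 10 * (H : ℝ) * θ ^ 4 ≤ ε ^ 2 / 32 := by
    have h1 : (H2 : ℝ) ≤ H := by
      have : H2 ≤ H := by omega
      exact_mod_cast this
    have h2 : θ ^ 4 = t ^ 4 / (H * c) ^ 2 := by
      rw [show θ ^ 4 = (θ ^ 2) ^ 2 by ring, hθ2]; ring
    have h3 : 10 * (H : ℝ) * θ ^ 4 = 10 * t ^ 4 / (c ^ 2 * H) := by
      rw [h2]; field_simp
    rw [h3, div_le_iff₀ (by positivity)]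
    rw [div_lt_iff₀ (by positivity)] at hH2
    have h4 : (H2 : ℝ) * (c ^ 2 * ε ^ 2) ≤ H * (c ^ 2 * ε ^ 2) := mul_le_mul_of_nonneg_right h1 (by positivity)
    nlinarith
  have hmain : (H : ℝ) * (|θ| * Real.sqrt (2 * M)) / M ≤ ε / 4 := by
    have h1 : ((κ : ℝ) + 1) * H ≤ M := by exact_mod_cast hM
    have h2 : 0 ≤ (H : ℝ) * (|θ| * Real.sqrt (2 * M)) / M := by positivity
    apply le_of_sq_le_sq _ (by positivity)
    have h3 : ((H : ℝ) * (|θ| * Real.sqrt (2 * M)) / M) ^ 2 = 2 * t ^ 2 * H / (c * M) := by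
      rw [div_pow, mul_pow, mul_pow, sq_abs, Real.sq_sqrt (by positivity), hθ2]
      field_simp
    rw [h3, div_le_iff₀ (by positivity)]
    rw [div_lt_iff₀ (by positivity)] at hκ
    have h4 : 32 * t ^ 2 * H ≤ κ * (c * ε ^ 2) * H := mul_le_mul_of_nonneg_right hκ.le hH0.le
    have h5 : (κ : ℝ) * H * (c * ε ^ 2) ≤ M * (c * ε ^ 2) := by
      apply mul_le_mul_of_nonneg_right _ (by positivity)
      nlinarith
    nlinarith
  have hstr : ∀ (s : Fin H → Fin M) (x : ℕ), charFun s t x = (1 / (x : ℂ)) * ∑ n ∈ Icc 1 x,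
      Complex.exp (((θ * ((∑ j, ArithmeticFunction.moebius (n + s j) : ℤ) : ℝ) : ℝ) : ℂ) * Complex.I) := by
    intro s x
    unfold charFun placeSum
    congr 1
    apply sum_congr rfl
    intro n _
    congr 1
    rw [mul_comm Complex.I]
    congr 2
    have : (H : ℝ) / (Real.pi ^ 2 / 6) = H * c := by rw [hcd]; field_simp
    rw [this, hθd]
    ring
  have hsub : {x : ℕ | ε < (1 / (M : ℝ) ^ H) * ∑ s : Fin H → Fin M,
      ‖charFun s t x - ((Real.exp (-(t ^ 2 / 2)) : ℝ) : ℂ)‖} ⊆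
      {x | ∃ a < M, ∃ b < M, a ≠ b ∧ 1 / (M : ℝ) < |(1 / (x : ℝ)) * ∑ n ∈ Icc 1 x, mr (n + a) * mr (n + b)|} ∪
      {x | x < x₀ + 1} := by
    intro x hx
    by_contra hcon
    rw [Set.mem_union, not_or] at hcon
    obtain ⟨hc1, hc2⟩ := hcon
    have hx1 : x₀ + 1 ≤ x := not_lt.1 hc2
    have hx' : ε < (1 / (M : ℝ) ^ H) * ∑ s : Fin H → Fin M,
      ‖charFun s t x - ((Real.exp (-(t ^ 2 / 2)) : ℝ) : ℂ)‖ := hx
    have hδ : ∀ a < M, ∀ b < M, a ≠ b → |(1 / (x : ℝ)) * ∑ n ∈ Icc 1 x,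
        ((ArithmeticFunction.moebius (n + a) : ℤ) : ℝ) * ((ArithmeticFunction.moebius (n + b) : ℤ) : ℝ)| ≤
        1 / (M : ℝ) := by
      intro a ha b hb hab
      by_contra h
      exact hc1 ⟨a, ha, b, hb, hab, not_le.1 h⟩
    have hT : Tri (fun n => ArithmeticFunction.moebius n) := fun n => by
      rcases ArithmeticFunction.moebius_eq_or n with h | h | h
      · exact Or.inl h
      · exact Or.inr (Or.inl h)
      · exact Or.inr (Or.inr h)
    have hcore := core (fun n => ArithmeticFunction.moebius n) hT M x H hM1 (by omega) t θ c (1 / (M : ℝ)) hc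
      hθ1 hHθ (by positivity) hδ (by rw [mul_one_div, div_self hM0.ne'])
    simp only [hstr] at hx'
    have hE := hx₀ x (by omega)
    have h5 : 3 * t ^ 2 / c * ((1 / (x : ℝ)) * ∑ n ∈ Icc 1 x, |(1 / (M : ℝ)) * ∑ a ∈ range M,
        ((ArithmeticFunction.moebius (n + a) : ℤ) : ℝ) ^ 2 - c|) ≤ ε ^ 2 / 32 := by
      refine (mul_le_mul_of_nonneg_left hE (by positivity)).trans ?_
      rw [hη, div_mul_div_comm, div_le_div_iff₀ (by positivity) (by positivity)]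
      have : 0 ≤ ε ^ 2 * c := by positivity
      nlinarith [sq_nonneg t]
    have h6 : Real.sqrt (10 * H * θ ^ 4 + 3 * t ^ 2 / c * ((1 / (x : ℝ)) * ∑ n ∈ Icc 1 x,
        |(1 / (M : ℝ)) * ∑ a ∈ range M, ((ArithmeticFunction.moebius (n + a) : ℤ) : ℝ) ^ 2 - c|)) ≤ ε / 4 := by
      rw [show ε / 4 = Real.sqrt ((ε / 4) ^ 2) by rw [Real.sqrt_sq (by positivity)]]
      apply Real.sqrt_le_sqrt
      have : (ε / 4) ^ 2 = ε ^ 2 / 32 + ε ^ 2 / 32 := by ring
      rw [this]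
      exact add_le_add hθ4 h5
    have h7 := hcore.trans (add_le_add hmain h6)
    have h8 : ε / 4 + ε / 4 < ε := by linarith
    exact absurd (hx'.trans_le h7) (not_lt.2 h8.le)
  exact LZ_sub hsub hbad

end Pool.Agent.Y956.TS
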