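import Mathlib

/-!
# Nearly orthogonal shifts, Bessel and telescoping
-/

set_option autoImplicit false

namespace Pool.Agent.Y956.TS

open Finset

/-- the average over `1 ≤ n ≤ x` -/
noncomputable def av (f : ℕ → ℂ) (x : ℕ) : ℂ := (1 / (x : ℂ)) * ∑ n ∈ Icc 1 x, f n

lemma norm_inv (x : ℕ) : ‖(1 / (x : ℂ))‖ = 1 / (x : ℝ) := by simp

lemma av_add (f g : ℕ → ℂ) (x : ℕ) : av (fun n => f n + g n) x = av f x + av g x := by
  unfold av
  rw [sum_add_distrib, mul_add]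

lemma av_smul (z : ℂ) (f : ℕ → ℂ) (x : ℕ) : av (fun n => z * f n) x = z * av f x := by
  unfold av
  rw [← mul_sum]
  ring

/-- Bessel's inequality for nearly orthogonal functions -/
lemma bessel (M x : ℕ) (hx : 1 ≤ x) (u : ℕ → ℕ → ℝ) (hu : ∀ a n, |u a n| ≤ 1) (δ : ℝ) (hδ0 : 0 ≤ δ)
    (hδ : ∀ a < M, ∀ b < M, a ≠ b → |(1 / (x : ℝ)) * ∑ n ∈ Icc 1 x, u a n * u b n| ≤ δ) (hMδ : M * δ ≤ 1)
    (Φ : ℕ → ℂ) (hΦ : ∀ n, ‖Φ n‖ ≤ 1) :
    ∑ a ∈ range M, ‖av (fun n => Φ n * (u a n : ℂ)) x‖ ≤ Real.sqrt (2 * M) := by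
  have hx0 : (0 : ℝ) < x := by exact_mod_cast hx
  set z : ℕ → ℂ := fun a => av (fun n => Φ n * (u a n : ℂ)) x with hz
  have hσ : ∀ a, ∃ σ : ℂ, ‖σ‖ ≤ 1 ∧ σ * z a = (‖z a‖ : ℂ) := by
    intro a
    rcases eq_or_ne (z a) 0 with h0 | h0
    · exact ⟨0, by simp, by simp [h0]⟩
    · refine ⟨(starRingEnd ℂ) (z a) / (‖z a‖ : ℂ), ?_, ?_⟩
      · rw [norm_div, RCLike.norm_conj, Complex.norm_real, norm_norm, div_self (norm_ne_zero_iff.2 h0)]
      · have h1 : (‖z a‖ : ℂ) ≠ 0 := by exact_mod_cast (norm_ne_zero_iff.2 h0)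
        rw [div_mul_eq_mul_div, div_eq_iff h1, mul_comm, Complex.mul_conj']
        ring
  choose σ hσ1 hσ2 using hσ
  set w : ℕ → ℂ := fun n => ∑ a ∈ range M, σ a * (u a n : ℂ) with hw
  set S := ∑ a ∈ range M, ‖z a‖ with hS
  have hS0 : 0 ≤ S := sum_nonneg fun _ _ => norm_nonneg _
  -- the sum as one average
  have h1 : (S : ℂ) = (1 / (x : ℂ)) * ∑ n ∈ Icc 1 x, Φ n * w n := by
    rw [hS]
    push_cast
    simp only [← hσ2]
    simp only [hz, av, hw]
    simp only [mul_sum]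
    rw [sum_comm]
    apply sum_congr rfl
    intro n _
    apply sum_congr rfl
    intro a _
    ring
  have h2 : S ≤ (1 / (x : ℝ)) * ∑ n ∈ Icc 1 x, ‖w n‖ := by
    have h3 : S = ‖(S : ℂ)‖ := by rw [Complex.norm_real, Real.norm_eq_abs, abs_of_nonneg hS0]
    rw [h3, h1, norm_mul, norm_inv]
    apply mul_le_mul_of_nonneg_left _ (by positivity)
    refine (norm_sum_le _ _).trans (sum_le_sum fun n _ => ?_)
    rw [norm_mul]
    exact mul_le_of_le_one_left (norm_nonneg _) (hΦ n)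
  have h3 : S ^ 2 ≤ (1 / (x : ℝ)) * ∑ n ∈ Icc 1 x, ‖w n‖ ^ 2 := by
    have h4 : S ^ 2 ≤ ((1 / (x : ℝ)) * ∑ n ∈ Icc 1 x, ‖w n‖) ^ 2 := pow_le_pow_left₀ hS0 h2 2
    have h5 : (∑ n ∈ Icc 1 x, ‖w n‖) ^ 2 ≤ x * ∑ n ∈ Icc 1 x, ‖w n‖ ^ 2 := by
      have := sq_sum_le_card_mul_sum_sq (s := Icc 1 x) (f := fun n => ‖w n‖)
      rwa [Nat.card_Icc, Nat.add_sub_cancel] at this
    calc S ^ 2 ≤ ((1 / (x : ℝ)) * ∑ n ∈ Icc 1 x, ‖w n‖) ^ 2 := h4
      _ = (1 / (x : ℝ)) ^ 2 * (∑ n ∈ Icc 1 x, ‖w n‖) ^ 2 := mul_pow _ _ _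
      _ ≤ (1 / (x : ℝ)) ^ 2 * (x * ∑ n ∈ Icc 1 x, ‖w n‖ ^ 2) := mul_le_mul_of_nonneg_left h5 (by positivity)
      _ = _ := by field_simp
  -- the quadratic form
  have h4 : ∑ n ∈ Icc 1 x, ‖w n‖ ^ 2 ≤ 2 * M * x := by
    have e1 : ((∑ n ∈ Icc 1 x, ‖w n‖ ^ 2 : ℝ) : ℂ) = ∑ a ∈ range M, ∑ b ∈ range M,
        (σ a * (starRingEnd ℂ) (σ b)) * ((∑ n ∈ Icc 1 x, u a n * u b n : ℝ) : ℂ) := by
      push_cast
      have e2 : ∀ n, ((‖w n‖ : ℂ)) ^ 2 = ∑ a ∈ range M, ∑ b ∈ range M,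
          (σ a * (starRingEnd ℂ) (σ b)) * ((u a n : ℂ) * (u b n : ℂ)) := by
        intro n
        rw [← Complex.mul_conj', hw]
        simp only [map_sum, map_mul, Complex.conj_ofReal]
        rw [sum_mul_sum]
        apply sum_congr rfl
        intro a _
        apply sum_congr rfl
        intro b _
        ring
      simp only [e2]
      rw [sum_comm]
      apply sum_congr rfl
      intro a _
      rw [sum_comm]
      apply sum_congr rfl
      intro b _
      rw [mul_sum]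
    have e3 : ∑ n ∈ Icc 1 x, ‖w n‖ ^ 2 ≤ ∑ a ∈ range M, ∑ b ∈ range M, |∑ n ∈ Icc 1 x, u a n * u b n| := by
      have e4 : ∑ n ∈ Icc 1 x, ‖w n‖ ^ 2 = ‖((∑ n ∈ Icc 1 x, ‖w n‖ ^ 2 : ℝ) : ℂ)‖ := by
        rw [Complex.norm_real, Real.norm_eq_abs, abs_of_nonneg (sum_nonneg fun _ _ => by positivity)]
      rw [e4, e1]
      refine (norm_sum_le _ _).trans (sum_le_sum fun a _ => (norm_sum_le _ _).trans (sum_le_sum fun b _ => ?_))
      rw [norm_mul, norm_mul, RCLike.norm_conj, Complex.norm_real, Real.norm_eq_abs]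
      exact mul_le_of_le_one_left (abs_nonneg _) (mul_le_one₀ (hσ1 a) (norm_nonneg _) (hσ1 b))
    have e5 : ∀ a ∈ range M, ∑ b ∈ range M, |∑ n ∈ Icc 1 x, u a n * u b n| ≤ 2 * x := by
      intro a ha
      rw [mem_range] at ha
      have e6 : ∀ b ∈ range M, |∑ n ∈ Icc 1 x, u a n * u b n| ≤ (if b = a then (x : ℝ) else 0) + δ * x := by
        intro b hb
        rw [mem_range] at hb
        split_ifs with h
        · have e7 : |∑ n ∈ Icc 1 x, u a n * u b n| ≤ x := by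
            refine (abs_sum_le_sum_abs _ _).trans ?_
            have e8 : ∀ n ∈ Icc 1 x, |u a n * u b n| ≤ 1 := by
              intro n _
              rw [abs_mul]
              exact mul_le_one₀ (hu a n) (abs_nonneg _) (hu b n)
            refine (sum_le_sum e8).trans ?_
            simp
          have : 0 ≤ δ * x := by positivity
          linarith
        · have e7 := hδ a ha b hb (Ne.symm h)
          rw [abs_mul, abs_of_pos (show (0 : ℝ) < 1 / x by positivity), one_div, inv_mul_le_iff₀ hx0] at e7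
          linarith
      refine (sum_le_sum e6).trans ?_
      rw [sum_add_distrib, sum_ite_eq' (range M) a, if_pos (mem_range.2 ha), sum_const, card_range, nsmul_eq_mul]
      have : (M : ℝ) * (δ * x) ≤ x := by
        calc (M : ℝ) * (δ * x) = (M * δ) * x := by ring
          _ ≤ 1 * x := mul_le_mul_of_nonneg_right hMδ hx0.le
          _ = x := one_mul _
      linarith
    refine e3.trans ((sum_le_sum e5).trans (le_of_eq ?_))
    rw [sum_const, card_range, nsmul_eq_mul]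
    ring
  apply Real.le_sqrt_of_sq_le
  refine h3.trans ?_
  rw [one_div, inv_mul_le_iff₀ hx0]
  linarith

/-- telescoping over the places -/
lemma tele (M x : ℕ) (A B : ℕ → ℕ → ℂ) (hA : ∀ a n, ‖A a n‖ ≤ 1) (hC : ∀ a n, ‖A a n + B a n‖ ≤ 1) (K : ℝ)
    (hK : ∀ Φ : ℕ → ℂ, (∀ n, ‖Φ n‖ ≤ 1) → ∑ a ∈ range M, ‖av (fun n => Φ n * B a n) x‖ ≤ K) :
    ∀ (H : ℕ) (Φ : ℕ → ℂ), (∀ n, ‖Φ n‖ ≤ 1) →
      M * ∑ s : Fin H → Fin M, ‖av (fun n => Φ n * (∏ j, (A (s j) n + B (s j) n) - ∏ j, A (s j) n)) x‖ ≤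
        H * K * M ^ H := by
  intro H
  induction H with
  | zero =>
    intro Φ _
    simp [av]
  | succ H ih =>
    intro Φ hΦ
    have e1 : ∑ s : Fin (H + 1) → Fin M,
        ‖av (fun n => Φ n * (∏ j, (A (s j) n + B (s j) n) - ∏ j, A (s j) n)) x‖ =
        ∑ a : Fin M, ∑ s : Fin H → Fin M, ‖av (fun n => Φ n * ((A a n + B a n) *
          ∏ j, (A (s j) n + B (s j) n) - A a n * ∏ j, A (s j) n)) x‖ := by
      rw [← Fintype.sum_prod_type']
      apply Fintype.sum_equiv (Fin.consEquiv (fun _ => Fin M)).symm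
      intro s
      simp only [Fin.prod_univ_succ]
      rfl
    rw [e1]
    have e2 : ∀ (a : Fin M) (s : Fin H → Fin M), ‖av (fun n => Φ n * ((A a n + B a n) *
          ∏ j, (A (s j) n + B (s j) n) - A a n * ∏ j, A (s j) n)) x‖ ≤
        ‖av (fun n => (Φ n * (A a n + B a n)) * (∏ j, (A (s j) n + B (s j) n) - ∏ j, A (s j) n)) x‖ +
        ‖av (fun n => (Φ n * ∏ j, A (s j) n) * B a n) x‖ := by
      intro a s
      have : (fun n => Φ n * ((A a n + B a n) * ∏ j, (A (s j) n + B (s j) n) - A a n * ∏ j, A (s j) n)) =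
          fun n => (Φ n * (A a n + B a n)) * (∏ j, (A (s j) n + B (s j) n) - ∏ j, A (s j) n) +
            (Φ n * ∏ j, A (s j) n) * B a n := by
        funext n
        ring
      rw [this, av_add]
      exact norm_add_le _ _
    have hM0 : (0 : ℝ) ≤ M := by positivity
    have e3 : M * ∑ a : Fin M, ∑ s : Fin H → Fin M, ‖av (fun n => (Φ n * (A a n + B a n)) *
        (∏ j, (A (s j) n + B (s j) n) - ∏ j, A (s j) n)) x‖ ≤ M * (H * K * M ^ H) := by
      rw [mul_sum]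
      have : ∀ a ∈ (univ : Finset (Fin M)), M * ∑ s : Fin H → Fin M, ‖av (fun n => (Φ n * (A a n + B a n)) *
          (∏ j, (A (s j) n + B (s j) n) - ∏ j, A (s j) n)) x‖ ≤ H * K * M ^ H := fun a _ =>
        ih (fun n => Φ n * (A a n + B a n)) fun n => by
          rw [norm_mul]
          exact mul_le_one₀ (hΦ n) (norm_nonneg _) (hC a n)
      refine (sum_le_sum this).trans (le_of_eq ?_)
      rw [sum_const, card_univ, Fintype.card_fin, nsmul_eq_mul]
    have e4 : ∑ a : Fin M, ∑ s : Fin H → Fin M, ‖av (fun n => (Φ n * ∏ j, A (s j) n) * B a n) x‖ ≤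
        M ^ H * K := by
      rw [sum_comm]
      have : ∀ s ∈ (univ : Finset (Fin H → Fin M)), ∑ a : Fin M,
          ‖av (fun n => (Φ n * ∏ j, A (s j) n) * B a n) x‖ ≤ K := by
        intro s _
        have h1 := hK (fun n => Φ n * ∏ j, A (s j) n) fun n => by
          rw [norm_mul, norm_prod]
          exact mul_le_one₀ (hΦ n) (by positivity) (prod_le_one (fun _ _ => norm_nonneg _) fun _ _ => hA _ _)
        rwa [← Fin.sum_univ_eq_sum_range
          (fun a => ‖av (fun n => (Φ n * ∏ j, A (s j) n) * B a n) x‖) M] at h1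
      refine (sum_le_sum this).trans (le_of_eq ?_)
      rw [sum_const, card_univ, Fintype.card_fun, Fintype.card_fin, Fintype.card_fin, nsmul_eq_mul]
      push_cast
      ring
    have e5 : M * ∑ a : Fin M, ∑ s : Fin H → Fin M, ‖av (fun n => Φ n * ((A a n + B a n) *
          ∏ j, (A (s j) n + B (s j) n) - A a n * ∏ j, A (s j) n)) x‖ ≤
        M * (∑ a : Fin M, ∑ s : Fin H → Fin M, ‖av (fun n => (Φ n * (A a n + B a n)) *
        (∏ j, (A (s j) n + B (s j) n) - ∏ j, A (s j) n)) x‖ +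
        ∑ a : Fin M, ∑ s : Fin H → Fin M, ‖av (fun n => (Φ n * ∏ j, A (s j) n) * B a n) x‖) := by
      apply mul_le_mul_of_nonneg_left _ hM0
      rw [← sum_add_distrib]
      apply sum_le_sum
      intro a _
      rw [← sum_add_distrib]
      exact sum_le_sum fun s _ => e2 a s
    refine e5.trans ?_
    rw [mul_add]
    have e6 := mul_le_mul_of_nonneg_left e4 hM0
    push_cast
    calc M * ∑ a : Fin M, ∑ s : Fin H → Fin M, ‖av (fun n => (Φ n * (A a n + B a n)) *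
        (∏ j, (A (s j) n + B (s j) n) - ∏ j, A (s j) n)) x‖ + M *
        ∑ a : Fin M, ∑ s : Fin H → Fin M, ‖av (fun n => (Φ n * ∏ j, A (s j) n) * B a n) x‖
        ≤ M * (H * K * M ^ H) + M * (M ^ H * K) := add_le_add e3 e6
      _ = (H + 1) * K * M ^ (H + 1) := by ring

end Pool.Agent.Y956.TS
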