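import Mathlib

/-! # Project TS: an elementary inequality with `cos` and `exp` -/

set_option autoImplicit false

namespace Pool.Agent.Y956.TS

theorem pow_diff {x y : ℝ} (hx : 0 ≤ x) (hx1 : x ≤ 1) (hy : 0 ≤ y) (hy1 : y ≤ 1) (H : ℕ) :
    |x ^ H - y ^ H| ≤ H * |x - y| := by
  induction H with
  | zero => simp
  | succ H ih =>
    have h1 : x ^ (H + 1) - y ^ (H + 1) = x * (x ^ H - y ^ H) + (x - y) * y ^ H := by ring
    rw [h1]
    have h2 : |x * (x ^ H - y ^ H)| ≤ |x ^ H - y ^ H| := by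
      rw [abs_mul, abs_of_nonneg hx]
      exact mul_le_of_le_one_left (abs_nonneg _) hx1
    have h3 : |(x - y) * y ^ H| ≤ |x - y| := by
      rw [abs_mul, abs_of_nonneg (pow_nonneg hy H)]
      exact mul_le_of_le_one_right (abs_nonneg _) (pow_le_one₀ hy hy1)
    calc |x * (x ^ H - y ^ H) + (x - y) * y ^ H| ≤
          |x * (x ^ H - y ^ H)| + |(x - y) * y ^ H| := abs_add_le _ _
      _ ≤ H * |x - y| + |x - y| := add_le_add (h2.trans ih) h3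
      _ = ((H + 1 : ℕ) : ℝ) * |x - y| := by
        push_cast
        ring

theorem exp_diff_aux {a b : ℝ} (ha : 0 ≤ a) (hab : a ≤ b) :
    |Real.exp (-a) - Real.exp (-b)| ≤ |a - b| := by
  have h1 : Real.exp (-b) = Real.exp (-a) * Real.exp (-(b - a)) := by
    rw [← Real.exp_add]
    congr 1
    ring
  have h2 : Real.exp (-b) ≤ Real.exp (-a) := Real.exp_le_exp.2 (by linarith)
  have h3 : -(b - a) + 1 ≤ Real.exp (-(b - a)) := Real.add_one_le_exp _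
  have h4 : Real.exp (-a) ≤ 1 := Real.exp_le_one_iff.2 (by linarith)
  have h5 : 0 < Real.exp (-a) := Real.exp_pos _
  have h6 : Real.exp (-(b - a)) ≤ 1 := Real.exp_le_one_iff.2 (by linarith)
  rw [abs_of_nonneg (by linarith), abs_of_nonpos (by linarith), h1]
  nlinarith

theorem exp_diff {a b : ℝ} (ha : 0 ≤ a) (hb : 0 ≤ b) :
    |Real.exp (-a) - Real.exp (-b)| ≤ |a - b| := by
  rcases le_total a b with h | h
  · exact exp_diff_aux ha h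
  · rw [abs_sub_comm, abs_sub_comm a b]
    exact exp_diff_aux hb h

theorem ineq (ρ c t θ : ℝ) (H : ℕ) (hρ0 : 0 ≤ ρ) (hρ1 : ρ ≤ 1) (hc : 0 < c) (hθ : |θ| ≤ 1)
    (hH : (H : ℝ) * θ ^ 2 * c = t ^ 2) :
    (1 - (1 - Real.cos θ ^ 2) * ρ) ^ H -
        2 * Real.exp (-(t ^ 2 / 2)) * (1 - (1 - Real.cos θ) * ρ) ^ H +
        Real.exp (-(t ^ 2 / 2)) ^ 2 ≤
      10 * H * θ ^ 4 + 3 * t ^ 2 / c * |ρ - c| := by
  have hθ2 : θ ^ 2 ≤ 1 := by
    have h := abs_le.1 hθ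
    nlinarith [h.1, h.2]
  have hθ2' : 0 ≤ θ ^ 2 := sq_nonneg θ
  have hθ4 : 0 ≤ θ ^ 4 := by positivity
  have hθ44 : θ ^ 4 = θ ^ 2 * θ ^ 2 := by ring
  have hθ41 : θ ^ 4 ≤ 1 := by nlinarith
  have hH0 : (0 : ℝ) ≤ H := Nat.cast_nonneg H
  -- the cosine
  obtain ⟨δ, hδ⟩ : ∃ δ, Real.cos θ = 1 - θ ^ 2 / 2 + δ := ⟨Real.cos θ - (1 - θ ^ 2 / 2), by ring⟩
  have hδ1 : |δ| ≤ θ ^ 4 * (5 / 96) := by
    have h := Real.cos_bound hθ
    have h2 : |θ| ^ 4 = θ ^ 4 := by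
      rw [show (4 : ℕ) = 2 * 2 by norm_num, pow_mul, pow_mul, sq_abs]
    rw [h2, hδ] at h
    have h3 : 1 - θ ^ 2 / 2 + δ - (1 - θ ^ 2 / 2) = δ := by ring
    rw [h3] at h
    exact h
  have hδ2 := abs_le.1 hδ1
  have hcos1 : Real.cos θ ≤ 1 := Real.cos_le_one θ
  have hcos0 : 0 ≤ Real.cos θ := by
    rw [hδ]
    nlinarith [hδ2.1]
  -- the four numbers
  set a1 : ℝ := 1 - (1 - Real.cos θ) * ρ with ha1
  set a2 : ℝ := 1 - (1 - Real.cos θ ^ 2) * ρ with ha2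
  have ha10 : 0 ≤ a1 := by
    rw [ha1]
    nlinarith
  have ha11 : a1 ≤ 1 := by
    rw [ha1]
    nlinarith
  have hcc : Real.cos θ ^ 2 ≤ 1 := by nlinarith
  have ha20 : 0 ≤ a2 := by
    rw [ha2]
    nlinarith [sq_nonneg (Real.cos θ)]
  have ha21 : a2 ≤ 1 := by
    rw [ha2]
    nlinarith
  have hz : 0 ≤ θ ^ 2 * ρ := mul_nonneg hθ2' hρ0
  have hz1 : θ ^ 2 * ρ ≤ θ ^ 2 := mul_le_of_le_one_right hθ2' hρ1
  have hzz : (θ ^ 2 * ρ) ^ 2 ≤ θ ^ 4 := by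
    rw [hθ44, sq]
    exact mul_le_mul hz1 hz1 hz hθ2'
  set b1 : ℝ := Real.exp (-(θ ^ 2 * ρ / 2)) with hb1
  set b2 : ℝ := Real.exp (-(θ ^ 2 * ρ)) with hb2
  have hb10 : 0 ≤ b1 := (Real.exp_pos _).le
  have hb11 : b1 ≤ 1 := Real.exp_le_one_iff.2 (by linarith)
  have hb20 : 0 ≤ b2 := (Real.exp_pos _).le
  have hb21 : b2 ≤ 1 := Real.exp_le_one_iff.2 (by linarith)
  have hd1 : |a1 - b1| ≤ θ ^ 4 := by
    have h := Real.abs_exp_sub_one_sub_id_le (x := -(θ ^ 2 * ρ / 2))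
      (abs_le.2 ⟨by linarith, by linarith⟩)
    rw [← hb1] at h
    have h' := abs_le.1 h
    have h2 : (-(θ ^ 2 * ρ / 2)) ^ 2 ≤ θ ^ 4 / 4 := by
      have : (-(θ ^ 2 * ρ / 2)) ^ 2 = (θ ^ 2 * ρ) ^ 2 / 4 := by ring
      rw [this]
      linarith
    have h3 : a1 = 1 - θ ^ 2 * ρ / 2 + δ * ρ := by
      rw [ha1, hδ]
      ring
    have h4 : |δ * ρ| ≤ θ ^ 4 * (5 / 96) := by
      rw [abs_mul, abs_of_nonneg hρ0]
      exact (mul_le_of_le_one_right (abs_nonneg _) hρ1).trans hδ1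
    have h4' := abs_le.1 h4
    rw [abs_le]
    constructor <;> linarith [h'.1, h'.2, h4'.1, h4'.2]
  have hd2 : |a2 - b2| ≤ 3 * θ ^ 4 := by
    have h := Real.abs_exp_sub_one_sub_id_le (x := -(θ ^ 2 * ρ))
      (abs_le.2 ⟨by linarith, by linarith⟩)
    rw [← hb2] at h
    have h' := abs_le.1 h
    have h2 : (-(θ ^ 2 * ρ)) ^ 2 ≤ θ ^ 4 := by
      have : (-(θ ^ 2 * ρ)) ^ 2 = (θ ^ 2 * ρ) ^ 2 := by ring
      rw [this]
      exact hzz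
    obtain ⟨η, hη⟩ : ∃ η, Real.cos θ ^ 2 = 1 - θ ^ 2 + η := ⟨Real.cos θ ^ 2 - (1 - θ ^ 2), by ring⟩
    have hη1 : η = θ ^ 4 / 4 + (2 - θ ^ 2) * δ + δ ^ 2 := by
      have : η = Real.cos θ ^ 2 - (1 - θ ^ 2) := by linarith
      rw [this, hδ]
      ring
    have hδs : δ ^ 2 ≤ θ ^ 4 * (5 / 96) := by
      have h5 : |δ| ≤ 1 := hδ1.trans (by linarith)
      calc δ ^ 2 = |δ| * |δ| := by rw [← sq, sq_abs]
        _ ≤ 1 * |δ| := mul_le_mul_of_nonneg_right h5 (abs_nonneg _)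
        _ ≤ θ ^ 4 * (5 / 96) := by rw [one_mul]; exact hδ1
    have hδm : |(2 - θ ^ 2) * δ| ≤ 2 * (θ ^ 4 * (5 / 96)) := by
      rw [abs_mul, abs_of_nonneg (by linarith)]
      exact mul_le_mul (by linarith) hδ1 (abs_nonneg _) (by norm_num)
    have hδm' := abs_le.1 hδm
    have hη2 : |η| ≤ θ ^ 4 := by
      rw [abs_le, hη1]
      constructor
      · linarith [hδm'.1, sq_nonneg δ]
      · linarith [hδm'.2]
    have h3 : a2 = 1 - θ ^ 2 * ρ + η * ρ := by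
      rw [ha2, hη]
      ring
    have h4 : |η * ρ| ≤ θ ^ 4 := by
      rw [abs_mul, abs_of_nonneg hρ0]
      exact (mul_le_of_le_one_right (abs_nonneg _) hρ1).trans hη2
    have h4' := abs_le.1 h4
    rw [abs_le]
    constructor <;> linarith [h'.1, h'.2, h4'.1, h4'.2]
  have hp1 : |a1 ^ H - b1 ^ H| ≤ H * θ ^ 4 :=
    (pow_diff ha10 ha11 hb10 hb11 H).trans (mul_le_mul_of_nonneg_left hd1 hH0)
  have hp2 : |a2 ^ H - b2 ^ H| ≤ H * (3 * θ ^ 4) :=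
    (pow_diff ha20 ha21 hb20 hb21 H).trans (mul_le_mul_of_nonneg_left hd2 hH0)
  -- the exponentials
  have ht2 : 0 ≤ t ^ 2 := sq_nonneg t
  have hHt : (H : ℝ) * θ ^ 2 = t ^ 2 / c := by
    rw [eq_div_iff hc.ne']
    exact hH
  have he1 : b1 ^ H = Real.exp (-(t ^ 2 / c * ρ / 2)) := by
    rw [hb1, ← Real.exp_nat_mul, ← hHt]
    congr 1
    ring
  have he2 : b2 ^ H = Real.exp (-(t ^ 2 / c * ρ)) := by
    rw [hb2, ← Real.exp_nat_mul, ← hHt]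
    congr 1
    ring
  set v : ℝ := Real.exp (-(t ^ 2 / 2)) with hv
  have hv2 : v ^ 2 = Real.exp (-(t ^ 2)) := by
    rw [hv, ← Real.exp_nat_mul]
    congr 1
    push_cast
    ring
  have hv0 : 0 ≤ v := (Real.exp_pos _).le
  have hv1 : v ≤ 1 := Real.exp_le_one_iff.2 (by linarith)
  have htc : 0 ≤ t ^ 2 / c := div_nonneg ht2 hc.le
  have hab : ∀ x : ℝ, |t ^ 2 / c * ρ - t ^ 2| = t ^ 2 / c * |ρ - c| := by
    intro _
    have : t ^ 2 / c * ρ - t ^ 2 = t ^ 2 / c * (ρ - c) := by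
      field_simp
    rw [this, abs_mul, abs_of_nonneg htc]
  have hq2 : |b2 ^ H - v ^ 2| ≤ t ^ 2 / c * |ρ - c| := by
    rw [he2, hv2, ← hab 0]
    exact exp_diff (mul_nonneg htc hρ0) ht2
  have hq1 : |b1 ^ H - v| ≤ t ^ 2 / c * |ρ - c| / 2 := by
    rw [he1, hv, ← hab 0]
    have h := exp_diff (a := t ^ 2 / c * ρ / 2) (b := t ^ 2 / 2)
      (by have := mul_nonneg htc hρ0; linarith) (by linarith)
    have h2 : |t ^ 2 / c * ρ / 2 - t ^ 2 / 2| = |t ^ 2 / c * ρ - t ^ 2| / 2 := by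
      rw [← sub_div, abs_div, abs_of_pos (by norm_num : (0 : ℝ) < 2)]
    rw [h2] at h
    exact h
  have hX : |a2 ^ H - v ^ 2| ≤ H * (3 * θ ^ 4) + t ^ 2 / c * |ρ - c| :=
    (abs_sub_le _ (b2 ^ H) _).trans (add_le_add hp2 hq2)
  have hY : |a1 ^ H - v| ≤ H * θ ^ 4 + t ^ 2 / c * |ρ - c| / 2 :=
    (abs_sub_le _ (b1 ^ H) _).trans (add_le_add hp1 hq1)
  have hvY : -(2 * v * (a1 ^ H - v)) ≤ 2 * (H * θ ^ 4 + t ^ 2 / c * |ρ - c| / 2) := by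
    have h1 : -(2 * v * (a1 ^ H - v)) ≤ 2 * (v * |a1 ^ H - v|) := by
      have h2 := neg_abs_le (a1 ^ H - v)
      nlinarith
    have h3 : v * |a1 ^ H - v| ≤ |a1 ^ H - v| := mul_le_of_le_one_left (abs_nonneg _) hv1
    linarith
  have hX' := (abs_le.1 hX).2
  have hfin : a2 ^ H - 2 * v * a1 ^ H + v ^ 2 = (a2 ^ H - v ^ 2) + -(2 * v * (a1 ^ H - v)) := by
    ring
  rw [hfin]
  have hm : 3 * t ^ 2 / c * |ρ - c| = 3 * (t ^ 2 / c * |ρ - c|) := by ring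
  rw [hm]
  have hnn : 0 ≤ t ^ 2 / c * |ρ - c| := mul_nonneg htc (abs_nonneg _)
  have hnn2 : 0 ≤ (H : ℝ) * θ ^ 4 := mul_nonneg hH0 hθ4
  linarith

end Pool.Agent.Y956.TS

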