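import Pool.Agent.Y956.TS.Core
import Pool.Agent.Y956.TS.Ineq

/-!
# Characteristic functions over all tuples of places
-/

set_option autoImplicit false

namespace Pool.Agent.Y956.TS

open Finset

/-- `m` takes the values `-1, 0, 1` -/
def Tri (m : ℕ → ℤ) : Prop := ∀ n, m n = 0 ∨ m n = 1 ∨ m n = -1

lemma exp_split (m : ℤ) (hm : m = 0 ∨ m = 1 ∨ m = -1) (θ : ℝ) :
    Complex.exp (((θ * (m : ℝ) : ℝ) : ℂ) * Complex.I) =
      (((1 - (1 - Real.cos θ) * (m : ℝ) ^ 2 : ℝ)) : ℂ) + (((Real.sin θ : ℝ) : ℂ) * Complex.I) * ((m : ℝ) : ℂ) := by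
  rw [Complex.exp_mul_I]
  rcases hm with h | h | h
  · subst h; simp
  · subst h; simp
  · subst h; simp [Complex.cos_neg, Complex.sin_neg]

lemma exp_sum {H : ℕ} (m : Fin H → ℤ) (θ : ℝ) :
    Complex.exp (((θ * ((∑ j, m j : ℤ) : ℝ) : ℝ) : ℂ) * Complex.I) =
      ∏ j, Complex.exp (((θ * (m j : ℝ) : ℝ) : ℂ) * Complex.I) := by
  rw [← Complex.exp_sum]
  congr 1
  push_cast
  rw [mul_sum, sum_mul]

/-- second moment over all tuples of places at a single point -/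
lemma second (M H : ℕ) (hM : 1 ≤ M) (q : ℕ → ℝ) (hq : ∀ a, q a = 0 ∨ q a = 1) (κ v : ℝ) :
    ∑ s : Fin H → Fin M, (∏ j, (1 - κ * q (s j)) - v) ^ 2 =
      (M : ℝ) ^ H * ((1 - (1 - (1 - κ) ^ 2) * ((1 / (M : ℝ)) * ∑ a ∈ range M, q a)) ^ H -
        2 * v * (1 - κ * ((1 / (M : ℝ)) * ∑ a ∈ range M, q a)) ^ H + v ^ 2) := by
  have hM0 : (M : ℝ) ≠ 0 := by
    have : (0 : ℝ) < M := by exact_mod_cast hM
    exact this.ne'
  have h1 : ∀ s : Fin H → Fin M, (∏ j, (1 - κ * q (s j)) - v) ^ 2 =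
      ∏ j, (1 - (1 - (1 - κ) ^ 2) * q (s j)) - 2 * v * ∏ j, (1 - κ * q (s j)) + v ^ 2 := by
    intro s
    have : ∏ j, (1 - (1 - (1 - κ) ^ 2) * q (s j)) = (∏ j, (1 - κ * q (s j))) ^ 2 := by
      rw [← prod_pow]
      apply prod_congr rfl
      intro j _
      rcases hq (s j) with h | h <;> rw [h] <;> ring
    rw [this]
    ring
  simp only [h1]
  rw [sum_add_distrib, sum_sub_distrib, ← mul_sum]
  have h2 : ∀ c : ℝ, ∑ s : Fin H → Fin M, ∏ j, (1 - c * q (s j)) =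
      (M : ℝ) ^ H * (1 - c * ((1 / (M : ℝ)) * ∑ a ∈ range M, q a)) ^ H := by
    intro c
    have h3 := Fintype.sum_pow (fun a : Fin M => 1 - c * q a) H
    rw [← h3, ← mul_pow]
    congr 1
    rw [sum_sub_distrib, ← mul_sum, sum_const, card_univ, Fintype.card_fin, nsmul_eq_mul,
      Fin.sum_univ_eq_sum_range (fun a => q a) M]
    field_simp
  rw [h2, h2, sum_const, card_univ, Fintype.card_fun, Fintype.card_fin, Fintype.card_fin, nsmul_eq_mul]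
  push_cast
  ring

theorem core (m : ℕ → ℤ) (hm : Tri m) (M x H : ℕ) (hM : 1 ≤ M) (hx : 1 ≤ x) (t θ c δ : ℝ) (hc : 0 < c)
    (hθ : |θ| ≤ 1) (hH : (H : ℝ) * θ ^ 2 * c = t ^ 2) (hδ0 : 0 ≤ δ)
    (hδ : ∀ a < M, ∀ b < M, a ≠ b → |(1 / (x : ℝ)) * ∑ n ∈ Icc 1 x, (m (n + a) : ℝ) * (m (n + b) : ℝ)| ≤ δ)
    (hMδ : M * δ ≤ 1) :
    (1 / (M : ℝ) ^ H) * ∑ s : Fin H → Fin M, ‖(1 / (x : ℂ)) * ∑ n ∈ Icc 1 x,
        Complex.exp (((θ * ((∑ j, m (n + s j) : ℤ) : ℝ) : ℝ) : ℂ) * Complex.I) -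
        ((Real.exp (-(t ^ 2 / 2)) : ℝ) : ℂ)‖ ≤
      H * (|θ| * Real.sqrt (2 * M)) / M + Real.sqrt (10 * H * θ ^ 4 + 3 * t ^ 2 / c * ((1 / (x : ℝ)) *
        ∑ n ∈ Icc 1 x, |(1 / (M : ℝ)) * ∑ a ∈ range M, (m (n + a) : ℝ) ^ 2 - c|)) := by
  have hM0 : (0 : ℝ) < M := by exact_mod_cast hM
  have hx0 : (0 : ℝ) < x := by exact_mod_cast hx
  set v : ℝ := Real.exp (-(t ^ 2 / 2)) with hv
  set A : ℕ → ℕ → ℂ := fun a n => (((1 - (1 - Real.cos θ) * (m (n + a) : ℝ) ^ 2 : ℝ)) : ℂ) with hA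
  set B : ℕ → ℕ → ℂ := fun a n => (((Real.sin θ : ℝ) : ℂ) * Complex.I) * ((m (n + a) : ℝ) : ℂ) with hB
  have hAB : ∀ a n, A a n + B a n = Complex.exp (((θ * (m (n + a) : ℝ) : ℝ) : ℂ) * Complex.I) := fun a n =>
    (exp_split (m (n + a)) (hm _) θ).symm
  have hA1 : ∀ a n, ‖A a n‖ ≤ 1 := by
    intro a n
    rw [hA]; beta_reduce
    rw [Complex.norm_real, Real.norm_eq_abs]
    rcases hm (n + a) with h | h | h <;> rw [h] <;> simp [Real.abs_cos_le_one]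
  have hC1 : ∀ a n, ‖A a n + B a n‖ ≤ 1 := by
    intro a n
    rw [hAB, Complex.norm_exp_ofReal_mul_I]
  have hK : ∀ Φ : ℕ → ℂ, (∀ n, ‖Φ n‖ ≤ 1) →
      ∑ a ∈ range M, ‖av (fun n => Φ n * B a n) x‖ ≤ |θ| * Real.sqrt (2 * M) := by
    intro Φ hΦ
    have h1 := bessel M x hx (fun a n => (m (n + a) : ℝ)) (fun a n => by
      rcases hm (n + a) with h | h | h <;> rw [h] <;> simp) δ hδ0 hδ hMδ Φ hΦ
    have h2 : ∀ a ∈ range M, ‖av (fun n => Φ n * B a n) x‖ ≤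
        |θ| * ‖av (fun n => Φ n * ((m (n + a) : ℝ) : ℂ)) x‖ := by
      intro a _
      have h3 : (fun n => Φ n * B a n) =
          fun n => (((Real.sin θ : ℝ) : ℂ) * Complex.I) * (Φ n * ((m (n + a) : ℝ) : ℂ)) := by
        funext n
        rw [hB]; beta_reduce
        ring
      rw [h3, av_smul, norm_mul, norm_mul, Complex.norm_I, mul_one, Complex.norm_real, Real.norm_eq_abs]
      exact mul_le_mul_of_nonneg_right Real.abs_sin_le_abs (norm_nonneg _)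
    refine (sum_le_sum h2).trans ?_
    rw [← mul_sum]
    exact mul_le_mul_of_nonneg_left h1 (abs_nonneg _)
  have h1 := tele M x A B hA1 hC1 _ hK H (fun _ => 1) (fun _ => by simp)
  simp only [one_mul] at h1
  -- splitting
  have h2 : ∀ s : Fin H → Fin M, ‖(1 / (x : ℂ)) * ∑ n ∈ Icc 1 x,
        Complex.exp (((θ * ((∑ j, m (n + s j) : ℤ) : ℝ) : ℝ) : ℂ) * Complex.I) - (v : ℂ)‖ ≤
      ‖av (fun n => ∏ j, (A (s j) n + B (s j) n) - ∏ j, A (s j) n) x‖ +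
      (1 / (x : ℝ)) * ∑ n ∈ Icc 1 x, |∏ j, (1 - (1 - Real.cos θ) * (m (n + s j) : ℝ) ^ 2) - v| := by
    intro s
    have e1 : (1 / (x : ℂ)) * ∑ n ∈ Icc 1 x,
        Complex.exp (((θ * ((∑ j, m (n + s j) : ℤ) : ℝ) : ℝ) : ℂ) * Complex.I) - (v : ℂ) =
        av (fun n => ∏ j, (A (s j) n + B (s j) n) - ∏ j, A (s j) n) x +
        (1 / (x : ℂ)) * ∑ n ∈ Icc 1 x, (∏ j, A (s j) n - (v : ℂ)) := by
      unfold av
      rw [← mul_add, ← sum_add_distrib]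
      have e2 : ∀ n, ∏ j, (A (s j) n + B (s j) n) - ∏ j, A (s j) n + (∏ j, A (s j) n - (v : ℂ)) =
          Complex.exp (((θ * ((∑ j, m (n + s j) : ℤ) : ℝ) : ℝ) : ℂ) * Complex.I) - (v : ℂ) := by
        intro n
        rw [exp_sum (fun j => m (n + s j)) θ]
        simp only [hAB]
        ring
      simp only [e2]
      rw [sum_sub_distrib, sum_const, Nat.card_Icc, Nat.add_sub_cancel, nsmul_eq_mul]
      have hx1 : (x : ℂ) ≠ 0 := by exact_mod_cast hx0.ne'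
      rw [mul_sub, ← mul_assoc, one_div, inv_mul_cancel₀ hx1, one_mul]
    rw [e1]
    refine (norm_add_le _ _).trans (add_le_add le_rfl ?_)
    rw [norm_mul, norm_inv]
    apply mul_le_mul_of_nonneg_left _ (by positivity)
    refine (norm_sum_le _ _).trans (sum_le_sum fun n _ => ?_)
    rw [hA]; beta_reduce
    rw [← Complex.ofReal_prod, ← Complex.ofReal_sub, Complex.norm_real, Real.norm_eq_abs]
  have h3 : (1 / (M : ℝ) ^ H) * ∑ s : Fin H → Fin M,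
      ‖av (fun n => ∏ j, (A (s j) n + B (s j) n) - ∏ j, A (s j) n) x‖ ≤
      H * (|θ| * Real.sqrt (2 * M)) / M := by
    rw [one_div, inv_mul_le_iff₀ (by positivity), mul_div_assoc', le_div_iff₀ hM0]
    nlinarith [h1]
  -- second moment
  set U := (univ : Finset (Fin H → Fin M)) with hU
  set Y : (Fin H → Fin M) → ℕ → ℝ := fun s n => ∏ j, (1 - (1 - Real.cos θ) * (m (n + s j) : ℝ) ^ 2) - v with hY
  have h4 : (∑ s ∈ U, ∑ n ∈ Icc 1 x, |Y s n|) ^ 2 ≤ ((M : ℝ) ^ H * x) * ∑ s ∈ U, ∑ n ∈ Icc 1 x, Y s n ^ 2 := by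
    have e1 := sq_sum_le_card_mul_sum_sq (s := U ×ˢ Icc 1 x) (f := fun p => |Y p.1 p.2|)
    rw [sum_product, sum_product, card_product, Nat.card_Icc, Nat.add_sub_cancel] at e1
    simp only [sq_abs] at e1
    rw [hU, card_univ, Fintype.card_fun, Fintype.card_fin, Fintype.card_fin] at e1
    push_cast at e1
    exact e1
  have h5 : ∑ s ∈ U, ∑ n ∈ Icc 1 x, Y s n ^ 2 ≤ (M : ℝ) ^ H * (x * (10 * H * θ ^ 4 + 3 * t ^ 2 / c *
      ((1 / (x : ℝ)) * ∑ n ∈ Icc 1 x, |(1 / (M : ℝ)) * ∑ a ∈ range M, (m (n + a) : ℝ) ^ 2 - c|))) := by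
    rw [sum_comm]
    have e1 : ∀ n ∈ Icc 1 x, ∑ s ∈ U, Y s n ^ 2 ≤ (M : ℝ) ^ H * (10 * H * θ ^ 4 + 3 * t ^ 2 / c *
        |(1 / (M : ℝ)) * ∑ a ∈ range M, (m (n + a) : ℝ) ^ 2 - c|) := by
      intro n _
      rw [hY]; beta_reduce
      rw [hU, second M H hM (fun a => (m (n + a) : ℝ) ^ 2) (fun a => by
        rcases hm (n + a) with h | h | h <;> rw [h] <;> simp)]
      apply mul_le_mul_of_nonneg_left _ (by positivity)
      have hρ0 : 0 ≤ (1 / (M : ℝ)) * ∑ a ∈ range M, (m (n + a) : ℝ) ^ 2 :=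
        mul_nonneg (by positivity) (sum_nonneg fun _ _ => sq_nonneg _)
      have hρ1 : (1 / (M : ℝ)) * ∑ a ∈ range M, (m (n + a) : ℝ) ^ 2 ≤ 1 := by
        rw [one_div, inv_mul_le_iff₀ hM0, mul_one]
        have : ∀ a ∈ range M, (m (n + a) : ℝ) ^ 2 ≤ 1 := by
          intro a _
          rcases hm (n + a) with h | h | h <;> rw [h] <;> simp
        refine (sum_le_sum this).trans ?_
        simp
      have e2 := ineq _ c t θ H hρ0 hρ1 hc hθ hH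
      have e3 : 1 - (1 - (1 - Real.cos θ)) ^ 2 = 1 - Real.cos θ ^ 2 := by ring
      rw [e3]
      exact e2
    refine (sum_le_sum e1).trans (le_of_eq ?_)
    rw [← mul_sum, sum_add_distrib, sum_const, Nat.card_Icc, Nat.add_sub_cancel, nsmul_eq_mul, ← mul_sum]
    congr 1
    field_simp
  have h6 : (1 / (M : ℝ) ^ H) * ∑ s ∈ U, ((1 / (x : ℝ)) * ∑ n ∈ Icc 1 x, |Y s n|) ≤
      Real.sqrt (10 * H * θ ^ 4 + 3 * t ^ 2 / c * ((1 / (x : ℝ)) *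
        ∑ n ∈ Icc 1 x, |(1 / (M : ℝ)) * ∑ a ∈ range M, (m (n + a) : ℝ) ^ 2 - c|)) := by
    apply Real.le_sqrt_of_sq_le
    rw [← mul_sum, mul_pow, mul_pow]
    have hP : (0 : ℝ) < (M : ℝ) ^ H := by positivity
    set S := 10 * H * θ ^ 4 + 3 * t ^ 2 / c * ((1 / (x : ℝ)) *
        ∑ n ∈ Icc 1 x, |(1 / (M : ℝ)) * ∑ a ∈ range M, (m (n + a) : ℝ) ^ 2 - c|) with hS
    calc (1 / (M : ℝ) ^ H) ^ 2 * ((1 / (x : ℝ)) ^ 2 * (∑ s ∈ U, ∑ n ∈ Icc 1 x, |Y s n|) ^ 2)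
        ≤ (1 / (M : ℝ) ^ H) ^ 2 * ((1 / (x : ℝ)) ^ 2 * (((M : ℝ) ^ H * x) * ((M : ℝ) ^ H * (x * S)))) := by
          apply mul_le_mul_of_nonneg_left _ (by positivity)
          apply mul_le_mul_of_nonneg_left _ (by positivity)
          exact h4.trans (mul_le_mul_of_nonneg_left h5 (by positivity))
      _ = S := by field_simp
  calc (1 / (M : ℝ) ^ H) * ∑ s : Fin H → Fin M, ‖(1 / (x : ℂ)) * ∑ n ∈ Icc 1 x,
        Complex.exp (((θ * ((∑ j, m (n + s j) : ℤ) : ℝ) : ℝ) : ℂ) * Complex.I) - (v : ℂ)‖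
      ≤ (1 / (M : ℝ) ^ H) * ∑ s : Fin H → Fin M,
        (‖av (fun n => ∏ j, (A (s j) n + B (s j) n) - ∏ j, A (s j) n) x‖ +
        (1 / (x : ℝ)) * ∑ n ∈ Icc 1 x, |Y s n|) :=
        mul_le_mul_of_nonneg_left (sum_le_sum fun s _ => h2 s) (by positivity)
    _ ≤ _ := by
        rw [sum_add_distrib, mul_add]
        exact add_le_add h3 h6

end Pool.Agent.Y956.TS
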