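import Pool.Agent.Y956.TS.Core
import Pool.Agent.Y956.TS.Pair

/-!
# Independence of the signs at almost all tuples of places
-/

set_option autoImplicit false

namespace Pool.Agent.Y956.TS

open Finset Filter Topology
open Pool.Agent.Y958.U (LZ)
open Pool.Agent.Y958.TC (Av)

lemma one_pairG (f : ℕ → ℤ) (hb : ∀ n, |f n| ≤ 1) (hf : Pool.Agent.TH823.MRS.FlipAll f)
    (hE : Pool.Agent.TH823.MRS.ExpoSmall (fun n => ((f n : ℤ) : ℂ))) (a h : ℕ) (hh : 1 ≤ h) (δ : ℝ) (hδ : 0 < δ) :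
    LZ {x | δ < |(1 / (x : ℝ)) * ∑ n ∈ Icc 1 x, (f (n + a) : ℝ) * (f (n + a + h) : ℝ)|} := by
  set φ : ℕ → ℝ := fun n => (f n : ℝ) * (f (n + h) : ℝ) with hφ
  have hfr : ∀ n, |(f n : ℝ)| ≤ 1 := fun n => by exact_mod_cast hb n
  have hφ1 : ∀ n, |φ n| ≤ 1 := fun n => by
    rw [hφ]; beta_reduce; rw [abs_mul]; exact mul_le_one₀ (hfr _) (abs_nonneg _) (hfr _)
  have h0 := Pool.Agent.Y958.TC.two (Pool.Agent.Y304.U.avc Pool.Agent.Y304.U.pw)
    f hb hf hE h hh 1 le_rfl (fun _ => 1) (fun _ => by simp) (fun _ => rfl) (δ / 2) (by positivity)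
  obtain ⟨K, hK⟩ := exists_nat_gt (4 * (1 + (a : ℝ)) / δ)
  refine LZ_sub ?_ (LZ_union h0 (LZ_bdd {x | x < K + 1} (K + 1) fun n hn => hn))
  intro x hx
  by_cases hxK : x < K + 1
  · exact Or.inr hxK
  left
  show δ / 2 < |Av x (fun n => 1 * (f n : ℝ) * (f (n + h) : ℝ))|
  have hx' : δ < |(1 / (x : ℝ)) * ∑ n ∈ Icc 1 x, (f (n + a) : ℝ) * (f (n + a + h) : ℝ)| := hx
  have hxK' : (K : ℝ) + 1 ≤ x := by exact_mod_cast not_lt.1 hxK
  have hx0 : (0 : ℝ) < x := by
    have : (0 : ℝ) ≤ K := by positivity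
    linarith
  have e1 : ∑ n ∈ Icc 1 x, (f (n + a) : ℝ) * (f (n + a + h) : ℝ) = ∑ i ∈ range x, φ ((1 + a) + i) := by
    have : Icc 1 x = Ico 1 (x + 1) := by ext; simp
    rw [this, sum_Ico_eq_sum_range, Nat.add_sub_cancel]
    apply sum_congr rfl
    intro i _
    rw [hφ]; beta_reduce
    rw [show 1 + i + a = 1 + a + i by ring]
  have e2 : ∑ i ∈ range ((1 + a) + x), φ i = ∑ i ∈ range (1 + a), φ i + ∑ i ∈ range x, φ ((1 + a) + i) :=
    sum_range_add φ (1 + a) x
  have e3 : ∑ i ∈ range (x + (1 + a)), φ i = ∑ i ∈ range x, φ i + ∑ i ∈ range (1 + a), φ (x + i) :=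
    sum_range_add φ x (1 + a)
  rw [add_comm x (1 + a)] at e3
  have e4 : |∑ i ∈ range (1 + a), φ i| ≤ 1 + a := by
    refine (abs_sum_le_sum_abs _ _).trans ((sum_le_sum fun i _ => hφ1 i).trans ?_)
    simp
  have e5 : |∑ i ∈ range (1 + a), φ (x + i)| ≤ 1 + a := by
    refine (abs_sum_le_sum_abs _ _).trans ((sum_le_sum fun i _ => hφ1 (x + i)).trans ?_)
    simp
  have e6 : Av x (fun n => 1 * (f n : ℝ) * (f (n + h) : ℝ)) = (1 / (x : ℝ)) * ∑ i ∈ range x, φ i := by
    unfold Av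
    rw [div_eq_inv_mul, one_div]
    congr 1
    apply sum_congr rfl
    intro i _
    show 1 * (f i : ℝ) * (f (i + h) : ℝ) = (f i : ℝ) * (f (i + h) : ℝ)
    rw [one_mul]
  rw [e6]
  rw [e1] at hx'
  have e7 : ∑ i ∈ range x, φ ((1 + a) + i) = ∑ i ∈ range x, φ i +
      (∑ i ∈ range (1 + a), φ (x + i) - ∑ i ∈ range (1 + a), φ i) := by linarith
  rw [e7, mul_add] at hx'
  have e8 : |(1 / (x : ℝ)) * (∑ i ∈ range (1 + a), φ (x + i) - ∑ i ∈ range (1 + a), φ i)| ≤ δ / 2 := by
    rw [abs_mul, abs_of_pos (show (0 : ℝ) < 1 / x by positivity), one_div, inv_mul_le_iff₀ hx0]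
    have e9 : |∑ i ∈ range (1 + a), φ (x + i) - ∑ i ∈ range (1 + a), φ i| ≤ 2 * (1 + a) := by
      refine (abs_sub _ _).trans ?_
      linarith
    refine e9.trans ?_
    rw [div_lt_iff₀ hδ] at hK
    nlinarith
  have e10 := abs_add_le ((1 / (x : ℝ)) * ∑ i ∈ range x, φ i)
    ((1 / (x : ℝ)) * (∑ i ∈ range (1 + a), φ (x + i) - ∑ i ∈ range (1 + a), φ i))
  linarith

theorem pairsG (f : ℕ → ℤ) (hb : ∀ n, |f n| ≤ 1) (hf : Pool.Agent.TH823.MRS.FlipAll f)
    (hE : Pool.Agent.TH823.MRS.ExpoSmall (fun n => ((f n : ℤ) : ℂ))) (M : ℕ) (δ : ℝ) (hδ : 0 < δ) :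
    LZ {x | ∃ a < M, ∃ b < M, a ≠ b ∧
      δ < |(1 / (x : ℝ)) * ∑ n ∈ Icc 1 x, (f (n + a) : ℝ) * (f (n + b) : ℝ)|} := by
  have h1 := LZ_fin ((range M) ×ˢ (Icc 1 M))
    (fun p => {x | δ < |(1 / (x : ℝ)) * ∑ n ∈ Icc 1 x, (f (n + p.1) : ℝ) * (f (n + p.1 + p.2) : ℝ)|})
    fun p hp => by
      rw [mem_product, mem_Icc] at hp
      exact one_pairG f hb hf hE p.1 p.2 hp.2.1 δ hδ
  refine LZ_sub ?_ h1
  rintro x ⟨a, ha, b, hb, hab, hx⟩
  rcases lt_or_gt_of_ne hab with h | h
  · refine ⟨(a, b - a), ?_, ?_⟩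
    · rw [mem_product, mem_range, mem_Icc]
      exact ⟨ha, by omega, by omega⟩
    · show δ < |(1 / (x : ℝ)) * ∑ n ∈ Icc 1 x, (f (n + a) : ℝ) * (f (n + a + (b - a)) : ℝ)|
      have : ∀ n, n + a + (b - a) = n + b := fun n => by omega
      simp only [this]
      exact hx
  · refine ⟨(b, a - b), ?_, ?_⟩
    · rw [mem_product, mem_range, mem_Icc]
      exact ⟨hb, by omega, by omega⟩
    · show δ < |(1 / (x : ℝ)) * ∑ n ∈ Icc 1 x, (f (n + b) : ℝ) * (f (n + b + (a - b)) : ℝ)|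
      have : ∀ n, n + b + (a - b) = n + a := fun n => by omega
      simp only [this]
      have e : ∀ n, (f (n + b) : ℝ) * (f (n + a) : ℝ) = (f (n + a) : ℝ) * (f (n + b) : ℝ) :=
        fun n => mul_comm _ _
      simp only [e]
      exact hx

/-- a product over a nonempty set of places, on average over all tuples -/
lemma proj (M x : ℕ) (u : ℕ → ℕ → ℂ) (hu : ∀ a n, ‖u a n‖ ≤ 1) (K : ℝ)
    (hK : ∀ Φ : ℕ → ℂ, (∀ n, ‖Φ n‖ ≤ 1) → ∑ a ∈ range M, ‖av (fun n => Φ n * u a n) x‖ ≤ K) :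
    ∀ (H : ℕ) (b : Fin H → Bool), (∃ j, b j = true) → ∀ (Φ : ℕ → ℂ), (∀ n, ‖Φ n‖ ≤ 1) →
      M * ∑ s : Fin H → Fin M, ‖av (fun n => Φ n * ∏ j, (if b j = true then u (s j) n else 1)) x‖ ≤
        K * M ^ H := by
  intro H
  induction H with
  | zero =>
    rintro b ⟨j, _⟩
    exact Fin.elim0 j
  | succ H ih =>
    intro b hb Φ hΦ
    have e1 : ∑ s : Fin (H + 1) → Fin M,
        ‖av (fun n => Φ n * ∏ j, (if b j = true then u (s j) n else 1)) x‖ =
        ∑ a : Fin M, ∑ s : Fin H → Fin M, ‖av (fun n => Φ n * ((if b 0 = true then u a n else 1) *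
          ∏ j : Fin H, (if b j.succ = true then u (s j) n else 1))) x‖ := by
      rw [← Fintype.sum_prod_type']
      apply Fintype.sum_equiv (Fin.consEquiv (fun _ => Fin M)).symm
      intro s
      simp only [Fin.prod_univ_succ]
      rfl
    rw [e1]
    have hprod : ∀ (s : Fin H → Fin M) n, ‖∏ j : Fin H, (if b j.succ = true then u (s j) n else 1)‖ ≤ 1 := by
      intro s n
      rw [norm_prod]
      apply prod_le_one (fun _ _ => norm_nonneg _)
      intro j _
      split_ifs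
      · exact hu _ _
      · simp
    by_cases h0 : b 0 = true
    · have e2 : ∑ a : Fin M, ∑ s : Fin H → Fin M, ‖av (fun n => Φ n * ((if b 0 = true then u a n else 1) *
          ∏ j : Fin H, (if b j.succ = true then u (s j) n else 1))) x‖ ≤ M ^ H * K := by
        rw [sum_comm]
        have : ∀ s ∈ (univ : Finset (Fin H → Fin M)), ∑ a : Fin M,
            ‖av (fun n => Φ n * ((if b 0 = true then u a n else 1) *
            ∏ j : Fin H, (if b j.succ = true then u (s j) n else 1))) x‖ ≤ K := by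
          intro s _
          have h1 := hK (fun n => Φ n * ∏ j : Fin H, (if b j.succ = true then u (s j) n else 1)) fun n => by
            rw [norm_mul]
            exact mul_le_one₀ (hΦ n) (norm_nonneg _) (hprod s n)
          rw [← Fin.sum_univ_eq_sum_range (fun a => ‖av (fun n =>
            (Φ n * ∏ j : Fin H, (if b j.succ = true then u (s j) n else 1)) * u a n) x‖) M] at h1
          refine le_trans (le_of_eq ?_) h1
          apply sum_congr rfl
          intro a _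
          congr 2
          funext n
          rw [if_pos h0]
          ring
        refine (sum_le_sum this).trans (le_of_eq ?_)
        rw [sum_const, card_univ, Fintype.card_fun, Fintype.card_fin, Fintype.card_fin, nsmul_eq_mul]
        push_cast
        ring
      calc _ ≤ (M : ℝ) * (M ^ H * K) := mul_le_mul_of_nonneg_left e2 (by positivity)
        _ = K * M ^ (H + 1) := by ring
    · have hb' : ∃ j : Fin H, b j.succ = true := by
        obtain ⟨j, hj⟩ := hb
        refine Fin.cases (motive := fun j => b j = true → ∃ j : Fin H, b j.succ = true) ?_ ?_ j hj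
        · intro h; exact absurd h h0
        · intro i hi; exact ⟨i, hi⟩
      rw [mul_sum]
      have : ∀ a ∈ (univ : Finset (Fin M)), M * ∑ s : Fin H → Fin M,
          ‖av (fun n => Φ n * ((if b 0 = true then u a n else 1) *
          ∏ j : Fin H, (if b j.succ = true then u (s j) n else 1))) x‖ ≤ K * M ^ H := by
        intro a _
        simp only [if_neg h0, one_mul]
        exact ih (fun j => b j.succ) hb' Φ hΦ
      refine (sum_le_sum this).trans (le_of_eq ?_)
      rw [sum_const, card_univ, Fintype.card_fin, nsmul_eq_mul]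
      ring

lemma expand {H : ℕ} (g : Fin H → ℂ) : ∏ j, (1 + g j) = ∑ b : Fin H → Bool, ∏ j, (if b j = true then g j else 1) := by
  have h := Finset.prod_univ_sum (fun _ : Fin H => (univ : Finset Bool)) (fun j c => if c = true then g j else 1)
  rw [Fintype.piFinset_univ] at h
  rw [← h]
  apply prod_congr rfl
  intro j _
  simp [add_comm]

end Pool.Agent.Y956.TS
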